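import Mathlib

/-! Graphs with bounded smallest eigenvalue: cliques and cocliques. -/

open Finset

namespace Pool.Agent.H253_Bi

variable {V : Type*} [DecidableEq V]

/-- `W` contains no edge. -/
def Ind (G : SimpleGraph V) (S : Finset V) : Prop := ∀ x ∈ S, ∀ y ∈ S, ¬ G.Adj x y

/-- any two different vertices of `K` are adjacent -/
def Clq (G : SimpleGraph V) (K : Finset V) : Prop := ∀ x ∈ K, ∀ y ∈ K, x ≠ y → G.Adj x y

lemma ramsey (G : SimpleGraph V) [DecidableRel G.Adj] : ∀ (n s t : ℕ), s + t = n →
    ∀ W : Finset V, 2 ^ n ≤ W.card →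
      (∃ S ⊆ W, S.card = s ∧ Ind G S) ∨ (∃ K ⊆ W, K.card = t ∧ Clq G K) := by
  intro n
  induction n with
  | zero =>
    intro s t hst W _
    left
    refine ⟨∅, by simp, by simp; omega, ?_⟩
    intro x hx
    simp at hx
  | succ n ih =>
    intro s t hst W hW
    rcases Nat.eq_zero_or_pos s with hs | hs
    · left
      exact ⟨∅, by simp, by simp [hs], by intro x hx; simp at hx⟩
    rcases Nat.eq_zero_or_pos t with ht | ht
    · right
      exact ⟨∅, by simp, by simp [ht], by intro x hx; simp at hx⟩
    have hne : W.Nonempty := by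
      rw [← Finset.card_pos]
      exact lt_of_lt_of_le (Nat.pow_pos (by norm_num)) hW
    obtain ⟨v, hv⟩ := hne
    set N := (W.erase v).filter (fun x => G.Adj v x) with hN
    set M := (W.erase v).filter (fun x => ¬ G.Adj v x) with hM
    have hc : N.card + M.card = (W.erase v).card := by
      rw [hN, hM]
      exact Finset.card_filter_add_card_filter_not _
    have hc' : (W.erase v).card = W.card - 1 := Finset.card_erase_of_mem hv
    have hpow : 2 ^ (n + 1) = 2 * 2 ^ n := by ring
    have hor : 2 ^ n ≤ N.card ∨ 2 ^ n ≤ M.card := by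
      by_contra hcon
      push Not at hcon
      omega
    rcases hor with h | h
    · rcases ih s (t - 1) (by omega) N h with ⟨S, hS, h1, h2⟩ | ⟨K, hK, h1, h2⟩
      · left
        refine ⟨S, hS.trans ?_, h1, h2⟩
        intro x hx
        rw [hN, Finset.mem_filter] at hx
        exact Finset.mem_of_mem_erase hx.1
      · right
        have hvK : v ∉ K := by
          intro hvK
          have := hK hvK
          rw [hN, Finset.mem_filter] at this
          exact (Finset.notMem_erase v W) this.1
        refine ⟨insert v K, ?_, ?_, ?_⟩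
        · intro x hx
          rcases Finset.mem_insert.1 hx with rfl | hx
          · exact hv
          · have := hK hx
            rw [hN, Finset.mem_filter] at this
            exact Finset.mem_of_mem_erase this.1
        · rw [Finset.card_insert_of_notMem hvK]
          omega
        · intro x hx y hy hxy
          have hadj : ∀ z ∈ K, G.Adj v z := by
            intro z hz
            have := hK hz
            rw [hN, Finset.mem_filter] at this
            exact this.2
          rcases Finset.mem_insert.1 hx with hx1 | hx1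
          · rcases Finset.mem_insert.1 hy with hy1 | hy1
            · exact absurd (hx1.trans hy1.symm) hxy
            · rw [hx1]; exact hadj y hy1
          · rcases Finset.mem_insert.1 hy with hy1 | hy1
            · rw [hy1]; exact (hadj x hx1).symm
            · exact h2 x hx1 y hy1 hxy
    · rcases ih (s - 1) t (by omega) M h with ⟨S, hS, h1, h2⟩ | ⟨K, hK, h1, h2⟩
      · left
        have hvS : v ∉ S := by
          intro hvS
          have := hS hvS
          rw [hM, Finset.mem_filter] at this
          exact (Finset.notMem_erase v W) this.1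
        refine ⟨insert v S, ?_, ?_, ?_⟩
        · intro x hx
          rcases Finset.mem_insert.1 hx with rfl | hx
          · exact hv
          · have := hS hx
            rw [hM, Finset.mem_filter] at this
            exact Finset.mem_of_mem_erase this.1
        · rw [Finset.card_insert_of_notMem hvS]
          omega
        · intro x hx y hy
          have hadj : ∀ z ∈ S, ¬ G.Adj v z := by
            intro z hz
            have := hS hz
            rw [hM, Finset.mem_filter] at this
            exact this.2
          rcases Finset.mem_insert.1 hx with hx1 | hx1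
          · rcases Finset.mem_insert.1 hy with hy1 | hy1
            · rw [hx1, hy1]; exact G.irrefl
            · rw [hx1]; exact hadj y hy1
          · rcases Finset.mem_insert.1 hy with hy1 | hy1
            · rw [hy1]; exact fun h => hadj x hx1 h.symm
            · exact h2 x hx1 y hy1
      · right
        refine ⟨K, hK.trans ?_, h1, h2⟩
        intro x hx
        rw [hM, Finset.mem_filter] at hx
        exact Finset.mem_of_mem_erase hx.1

variable [Fintype V]

/-- entry of the adjacency matrix -/
def ad (G : SimpleGraph V) [DecidableRel G.Adj] (x y : V) : ℝ := if G.Adj x y then 1 else 0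

/-- `A + L I` is positive semidefinite -/
def Psd (G : SimpleGraph V) [DecidableRel G.Adj] (L : ℝ) : Prop :=
  ∀ f : V → ℝ, 0 ≤ ∑ x, ∑ y, ad G x y * f x * f y + L * ∑ x, f x ^ 2

/-- number of edges between two sets -/
def ee (G : SimpleGraph V) [DecidableRel G.Adj] (X Y : Finset V) : ℝ :=
  ∑ x ∈ X, ∑ y ∈ Y, ad G x y

lemma form_ind (G : SimpleGraph V) [DecidableRel G.Adj] (X Y : Finset V) (a b : ℝ) :
    ∑ x, ∑ y, ad G x y * (if x ∈ X then a else 0) * (if y ∈ Y then b else 0) =
      a * b * ee G X Y := by
  unfold ee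
  rw [Finset.mul_sum]
  have h1 : ∀ x : V, ∑ y, ad G x y * (if x ∈ X then a else 0) * (if y ∈ Y then b else 0) =
      if x ∈ X then a * b * ∑ y ∈ Y, ad G x y else 0 := by
    intro x
    by_cases hx : x ∈ X
    · simp only [hx, if_true, Finset.mul_sum]
      rw [← Finset.sum_filter_add_sum_filter_not Finset.univ (fun y => y ∈ Y)]
      have h2 : ∑ y ∈ Finset.univ.filter (fun y => ¬ y ∈ Y),
          ad G x y * a * (if y ∈ Y then b else 0) = 0 := by
        apply Finset.sum_eq_zero
        intro y hy
        rw [Finset.mem_filter] at hy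
        simp [hy.2]
      rw [h2, add_zero]
      have h3 : Finset.univ.filter (fun y => y ∈ Y) = Y := by
        ext y; simp
      rw [h3]
      apply Finset.sum_congr rfl
      intro y hy
      simp [hy]
      ring
    · simp [hx]
  simp only [h1]
  rw [Finset.sum_ite_mem]
  simp

lemma ee_comm (G : SimpleGraph V) [DecidableRel G.Adj] (X Y : Finset V) :
    ee G X Y = ee G Y X := by
  unfold ee
  rw [Finset.sum_comm]
  apply Finset.sum_congr rfl
  intro y _
  apply Finset.sum_congr rfl
  intro x _
  simp [ad, G.adj_comm]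

/-- the quadratic form at a combination of three indicator functions -/
lemma psd3 (G : SimpleGraph V) [DecidableRel G.Adj] (L : ℝ) (h : Psd G L) (z : V)
    (P Q : Finset V) (hzP : z ∉ P) (hzQ : z ∉ Q) (hPQ : Disjoint P Q)
    (hP : ∀ x ∈ P, G.Adj z x) (hQ : ∀ x ∈ Q, ¬ G.Adj z x) (a b c : ℝ) :
    0 ≤ 2 * a * b * P.card + b ^ 2 * ee G P P + 2 * b * c * ee G P Q + c ^ 2 * ee G Q Q +
      L * (a ^ 2 + b ^ 2 * P.card + c ^ 2 * Q.card) := by
  have h0 := h (fun x => (if x ∈ ({z} : Finset V) then a else 0) + (if x ∈ P then b else 0) +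
    (if x ∈ Q then c else 0))
  have e1 : ∑ x, ((if x ∈ ({z} : Finset V) then a else 0) + (if x ∈ P then b else 0) +
    (if x ∈ Q then c else 0) : ℝ) ^ 2 = a ^ 2 + b ^ 2 * P.card + c ^ 2 * Q.card := by
    have h1 : ∀ x : V, ((if x ∈ ({z} : Finset V) then a else 0) + (if x ∈ P then b else 0) +
      (if x ∈ Q then c else 0) : ℝ) ^ 2 = (if x ∈ ({z} : Finset V) then a ^ 2 else 0) +
        (if x ∈ P then b ^ 2 else 0) + (if x ∈ Q then c ^ 2 else 0) := by
      intro x
      by_cases h1 : x = z
      · subst h1
        simp [hzP, hzQ]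
      · by_cases h2 : x ∈ P
        · have h3 : x ∉ Q := Finset.disjoint_left.1 hPQ h2
          simp [h1, h2, h3]
        · by_cases h3 : x ∈ Q
          · simp [h1, h2, h3]
          · simp [h1, h2, h3]
    simp only [h1, Finset.sum_add_distrib, Finset.sum_ite_mem, Finset.univ_inter,
      Finset.sum_const, Finset.card_singleton, nsmul_eq_mul]
    push_cast
    ring
  have ezP : ee G {z} P = P.card := by
    unfold ee ad
    rw [Finset.sum_singleton]
    rw [Finset.sum_congr rfl (fun y hy => if_pos (hP y hy))]
    simp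
  have ezQ : ee G {z} Q = 0 := by
    unfold ee ad
    rw [Finset.sum_singleton]
    apply Finset.sum_eq_zero
    intro y hy
    rw [if_neg (hQ y hy)]
  have ezz : ee G {z} {z} = 0 := by
    unfold ee ad
    simp
  have e2 : ∑ x, ∑ y, ad G x y * ((if x ∈ ({z} : Finset V) then a else 0) +
      (if x ∈ P then b else 0) + (if x ∈ Q then c else 0)) *
      ((if y ∈ ({z} : Finset V) then a else 0) + (if y ∈ P then b else 0) +
      (if y ∈ Q then c else 0)) =
      2 * a * b * P.card + b ^ 2 * ee G P P + 2 * b * c * ee G P Q + c ^ 2 * ee G Q Q := by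
    have h1 : ∀ x y : V, ad G x y * ((if x ∈ ({z} : Finset V) then a else 0) +
      (if x ∈ P then b else 0) + (if x ∈ Q then c else 0)) *
      ((if y ∈ ({z} : Finset V) then a else 0) + (if y ∈ P then b else 0) +
      (if y ∈ Q then c else 0)) =
      (ad G x y * (if x ∈ ({z} : Finset V) then a else 0) *
        (if y ∈ ({z} : Finset V) then a else 0) +
      ad G x y * (if x ∈ ({z} : Finset V) then a else 0) * (if y ∈ P then b else 0) +
      ad G x y * (if x ∈ ({z} : Finset V) then a else 0) * (if y ∈ Q then c else 0)) +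
      (ad G x y * (if x ∈ P then b else 0) * (if y ∈ ({z} : Finset V) then a else 0) +
      ad G x y * (if x ∈ P then b else 0) * (if y ∈ P then b else 0) +
      ad G x y * (if x ∈ P then b else 0) * (if y ∈ Q then c else 0)) +
      (ad G x y * (if x ∈ Q then c else 0) * (if y ∈ ({z} : Finset V) then a else 0) +
      ad G x y * (if x ∈ Q then c else 0) * (if y ∈ P then b else 0) +
      ad G x y * (if x ∈ Q then c else 0) * (if y ∈ Q then c else 0)) := by
      intro x y
      ring
    simp only [h1, Finset.sum_add_distrib, form_ind, ezP, ezQ, ezz, ee_comm G P {z},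
      ee_comm G Q {z}, ee_comm G Q P]
    ring
  rw [e1, e2] at h0
  exact h0

lemma claw (G : SimpleGraph V) [DecidableRel G.Adj] (L : ℕ) (h : Psd G L) (z : V)
    (S : Finset V) (hS : Ind G S) (hz : ∀ x ∈ S, G.Adj z x) : S.card ≤ L ^ 2 := by
  have hzS : z ∉ S := fun hh => G.irrefl (hz z hh)
  have e0 : ee G S S = 0 := by
    unfold ee ad
    apply Finset.sum_eq_zero
    intro x hx
    apply Finset.sum_eq_zero
    intro y hy
    rw [if_neg (hS x hx y hy)]
  have h1 := psd3 G L h z S ∅ hzS (by simp) (by simp) hz (by simp) (S.card : ℝ) (-(L : ℝ)) 0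
  rw [e0] at h1
  simp only [Finset.card_empty] at h1
  by_contra hcon
  push Not at hcon
  rcases Nat.eq_zero_or_pos L with hL | hL
  · subst hL
    have h2 := psd3 G 0 (by simpa using h) z S ∅ hzS (by simp) (by simp) hz (by simp) 1 (-1) 0
    rw [e0] at h2
    have : (0 : ℝ) < S.card := by
      have : 0 < S.card := by omega
      exact_mod_cast this
    simp at h2
    linarith
  have h3 : (L : ℝ) ^ 2 < S.card := by exact_mod_cast hcon
  have h4 : (0 : ℝ) < L := by exact_mod_cast hL
  have h5 : (0 : ℝ) < S.card := lt_of_le_of_lt (by positivity) h3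
  have h6 : 0 ≤ (L : ℝ) * S.card * ((L : ℝ) ^ 2 - S.card) := by
    nlinarith [h1]
  have h7 : (L : ℝ) * S.card * ((L : ℝ) ^ 2 - S.card) < 0 :=
    mul_neg_of_pos_of_neg (by positivity) (by linarith)
  linarith

lemma clq (G : SimpleGraph V) [DecidableRel G.Adj] (L : ℕ) (hL : 1 ≤ L) (h : Psd G L) (z : V)
    (P Q : Finset V) (hK : Clq G (P ∪ Q)) (hP : ∀ x ∈ P, G.Adj z x)
    (hQ : ∀ x ∈ Q, x ≠ z ∧ ¬ G.Adj z x) (h1 : 2 * L ^ 2 < P.card) (h2 : 2 * L ^ 2 < Q.card) :
    False := by
  have hzP : z ∉ P := fun hh => G.irrefl (hP z hh)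
  have hzQ : z ∉ Q := fun hh => (hQ z hh).1 rfl
  have hPQ : Disjoint P Q := by
    rw [Finset.disjoint_left]
    intro x hx hx'
    exact (hQ x hx').2 (hP x hx)
  have hc : ∀ X : Finset V, X ⊆ P ∪ Q → ee G X X = (X.card : ℝ) ^ 2 - X.card := by
    intro X hX
    unfold ee ad
    have : ∀ x ∈ X, ∑ y ∈ X, (if G.Adj x y then (1 : ℝ) else 0) = X.card - 1 := by
      intro x hx
      have h3 : ∀ y ∈ X, (if G.Adj x y then (1 : ℝ) else 0) = 1 - (if x = y then 1 else 0) := by
        intro y hy
        by_cases hxy : x = y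
        · subst hxy
          simp
        · rw [if_pos (hK x (hX hx) y (hX hy) hxy), if_neg hxy]
          ring
      rw [Finset.sum_congr rfl h3, Finset.sum_sub_distrib]
      simp [hx]
    rw [Finset.sum_congr rfl this]
    simp
    ring
  have ePQ : ee G P Q = (P.card : ℝ) * Q.card := by
    unfold ee ad
    have : ∀ x ∈ P, ∑ y ∈ Q, (if G.Adj x y then (1 : ℝ) else 0) = Q.card := by
      intro x hx
      have h3 : ∀ y ∈ Q, (if G.Adj x y then (1 : ℝ) else 0) = 1 := by
        intro y hy
        have hxy : x ≠ y := by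
          rintro rfl
          exact (Finset.disjoint_left.1 hPQ hx) hy
        rw [if_pos (hK x (Finset.mem_union_left _ hx) y (Finset.mem_union_right _ hy) hxy)]
      rw [Finset.sum_congr rfl h3]
      simp
    rw [Finset.sum_congr rfl this]
    simp
  have hLr : (1 : ℝ) ≤ L := by exact_mod_cast hL
  have hL0 : (0 : ℝ) < L := by linarith
  have hp : 2 * (L : ℝ) ^ 2 < P.card := by exact_mod_cast h1
  have hq : 2 * (L : ℝ) ^ 2 < Q.card := by exact_mod_cast h2
  set p : ℝ := (P.card : ℝ) with hpdef
  set q : ℝ := (Q.card : ℝ) with hqdef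
  have h3 := psd3 G L h z P Q hzP hzQ hPQ hP (fun x hx => (hQ x hx).2) (p * q) (-q * L) (p * L)
  rw [hc P Finset.subset_union_left, hc Q Finset.subset_union_right, ePQ, ← hpdef, ← hqdef] at h3
  have h4 : 2 * (p * q) * (-q * L) * p + (-q * L) ^ 2 * (p ^ 2 - p) +
      2 * (-q * L) * (p * L) * (p * q) + (p * L) ^ 2 * (q ^ 2 - q) +
      L * ((p * q) ^ 2 + (-q * L) ^ 2 * p + (p * L) ^ 2 * q) =
      (L : ℝ) * (p * q) * ((L : ℝ) * (L - 1) * (p + q) - p * q) := by
    ring
  rw [h4] at h3
  have hppos : 0 < p := lt_trans (by positivity) hp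
  have hqpos : 0 < q := lt_trans (by positivity) hq
  have h5 : (L : ℝ) * (L - 1) * (p + q) - p * q < 0 := by
    have h6 : (L : ℝ) * (L - 1) * (p + q) ≤ (L : ℝ) ^ 2 * (p + q) := by
      apply mul_le_mul_of_nonneg_right _ (by linarith)
      nlinarith
    have h7 : (L : ℝ) ^ 2 * p < p * q / 2 := by nlinarith
    have h8 : (L : ℝ) ^ 2 * q < p * q / 2 := by nlinarith
    nlinarith
  have h6 : (L : ℝ) * (p * q) * ((L : ℝ) * (L - 1) * (p + q) - p * q) < 0 :=
    mul_neg_of_pos_of_neg (by positivity) h5
  linarith

end Pool.Agent.H253_Bi
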