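import Pool.Agent.H253_Bi.Par

/-! Bounding the order of a biregular graph with three eigenvalues. -/

open Finset

namespace Pool.Agent.H253_Bi

variable {V : Type*} [DecidableEq V] [Fintype V] {G : SimpleGraph V} [DecidableRel G.Adj]
variable {α : V → ℝ} {r m θ a b : ℝ} {P Q : Finset V}

lemma Tri.one_le (h : Tri G α r m θ) {x y : V} (hxy : G.Adj x y) : 1 ≤ m := by
  have h1 := psd3 G m h.psd x {y} ∅ (by simpa using hxy.ne) (by simp) (by simp)
    (by simpa using hxy) (by simp) 1 (-1) 0
  simp only [ee, ad, Finset.sum_singleton, Finset.card_singleton, Finset.card_empty,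
    SimpleGraph.irrefl, if_false, Finset.sum_empty] at h1
  norm_num at h1
  linarith

lemma Tri.two_le (h : Tri G α r m θ) {x y z : V} (hxy : x ≠ y) (h0 : ¬ G.Adj x y)
    (hx : G.Adj z x) (hy : G.Adj z y) : 2 ≤ m ^ 2 := by
  have hm := h.one_le hx
  have h1 := psd3 G m h.psd z {x, y} ∅ (by simp [hx.ne, hy.ne]) (by simp) (by simp)
    (by intro w hw; rcases Finset.mem_insert.1 hw with rfl | hw
        · exact hx
        · rw [Finset.mem_singleton.1 hw]; exact hy) (by simp) 2 (-m) 0
  have h2 : ee G {x, y} {x, y} = 0 := by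
    unfold ee ad
    apply Finset.sum_eq_zero
    intro u hu
    apply Finset.sum_eq_zero
    intro v hv
    rw [if_neg]
    simp only [Finset.mem_insert, Finset.mem_singleton] at hu hv
    rcases hu with rfl | rfl <;> rcases hv with rfl | rfl
    · exact G.irrefl
    · exact h0
    · exact fun hh => h0 hh.symm
    · exact G.irrefl
  rw [h2, Finset.card_pair hxy] at h1
  simp only [Finset.card_empty] at h1
  push_cast at h1
  nlinarith

lemma Bi.noncomplete (h : Bi G α r m θ a b P Q) : ∃ x y : V, x ≠ y ∧ ¬ G.Adj x y := by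
  by_contra hcon
  push Not at hcon
  obtain ⟨x, hx⟩ := h.neP
  obtain ⟨y, hy⟩ := h.neQ
  have h1 : ∀ x : V, (nb G x).card = Fintype.card V - 1 := by
    intro x
    have : nb G x = Finset.univ.erase x := by
      ext z
      rw [mem_nb, Finset.mem_erase]
      constructor
      · intro hh
        exact ⟨hh.ne', Finset.mem_univ _⟩
      · intro hh
        exact hcon x z hh.1.symm
    rw [this, Finset.card_erase_of_mem (Finset.mem_univ _), Finset.card_univ]
  have h2 := h.tri.deg x
  have h3 := h.tri.deg y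
  rw [h1, h.ha x hx] at h2
  rw [h1, h.hb y hy] at h3
  have := h.lt
  have := h.b_pos
  nlinarith

lemma Bi.m_bounds (h : Bi G α r m θ a b P Q) : 1 ≤ m ∧ 2 ≤ m ^ 2 := by
  obtain ⟨x, y, hxy, h0⟩ := h.noncomplete
  have h1 := h.tri.com x y hxy
  have h2 : ad G x y = 0 := by simp [ad, h0]
  rw [h2, mul_zero, zero_add] at h1
  have h3 : (0 : ℝ) < ((nb G x ∩ nb G y).card : ℝ) := by
    rw [h1]
    exact mul_pos (h.tri.pos x) (h.tri.pos y)
  have h4 : 0 < (nb G x ∩ nb G y).card := by exact_mod_cast h3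
  obtain ⟨z, hz⟩ := Finset.card_pos.1 h4
  rw [Finset.mem_inter, mem_nb, mem_nb] at hz
  exact ⟨h.tri.one_le hz.1, h.tri.two_le hxy h0 hz.1.symm hz.2.symm⟩

lemma Bi.r_bounds (h : Bi G α r m θ a b P Q) : -1 < r ∧ r ≤ 5 / 2 * (a * b) ∧
    r * m ≤ 7 / 2 * (a * b) ∧ ((r * m - a * b = r ∧ 0 < r) ∨ r * m - a * b = -m) := by
  obtain ⟨hm1, hm2⟩ := h.m_bounds
  have hm : (7 / 5 : ℝ) ≤ m := by nlinarith
  have hab : 0 < a * b := mul_pos h.a_pos h.b_pos
  rcases h.cases with h1 | h1
  · have hr : 0 < r := by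
      by_contra hcon
      push Not at hcon
      have : r * (m - 1) ≤ 0 := mul_nonpos_of_nonpos_of_nonneg hcon (by linarith)
      linarith
    have h2 : r * (2 / 5) ≤ r * (m - 1) := mul_le_mul_of_nonneg_left (by linarith) hr.le
    refine ⟨by linarith, by linarith, by linarith, Or.inl ⟨by linarith, hr⟩⟩
  · have hr : -1 < r := by
      by_contra hcon
      push Not at hcon
      have : m * (r + 1) ≤ 0 := mul_nonpos_of_nonneg_of_nonpos (by linarith) (by linarith)
      linarith
    have h2 : 1 * (r + 1) ≤ m * (r + 1) := mul_le_mul_of_nonneg_right hm1 (by linarith)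
    refine ⟨hr, by linarith, by linarith, Or.inr (by linarith)⟩

/-- degrees are at most `9/2 a²` -/
lemma Bi.deg_le (h : Bi G α r m θ a b P Q) (x : V) : ((nb G x).card : ℝ) ≤ 9 / 2 * a ^ 2 := by
  obtain ⟨_, _, h3, _⟩ := h.r_bounds
  have h1 := h.tri.deg x
  have ha := h.a_pos
  have hb := h.b_pos
  have hlt := h.lt
  have h4 : α x ^ 2 ≤ a ^ 2 := by
    rcases h.cov x with hx | hx
    · rw [h.ha x hx]
    · rw [h.hb x hx]
      nlinarith
  have h5 : a * b ≤ a ^ 2 := by nlinarith
  linarith

/-- there is an edge between the two classes -/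
lemma Bi.cross (h : Bi G α r m θ a b P Q) : ∃ x ∈ P, ∃ y ∈ Q, G.Adj x y := by
  by_contra hcon
  push Not at hcon
  obtain ⟨x, hx⟩ := h.neP
  obtain ⟨y, hy⟩ := h.neQ
  have key : ∀ (u v : V) (w : G.Walk u v), u ∈ P → v ∈ P := by
    intro u v w
    induction w with
    | nil => exact fun hh => hh
    | cons hadj _ ih =>
      intro hu
      apply ih
      rcases h.cov _ with h1 | h1
      · exact h1
      · exact absurd hadj (hcon _ hu _ h1)
  obtain ⟨w⟩ := h.conn.preconnected x y
  exact h.notMem hy (key x y w hx)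

/-- the difference of the two values is at least one if some class contains an edge -/
lemma Bi.gap (h : Bi G α r m θ a b P Q)
    (he : (∃ x ∈ P, ∃ y ∈ P, G.Adj x y) ∨ (∃ x ∈ Q, ∃ y ∈ Q, G.Adj x y)) : 1 ≤ a - b := by
  obtain ⟨x, hx, y, hy, hxy⟩ := h.cross
  have h1 := h.tri.com x y hxy.ne
  rw [h.ha x hx, h.hb y hy] at h1
  have had : ∀ u v : V, G.Adj u v → ad G u v = 1 := by
    intro u v huv
    simp [ad, huv]
  rw [had _ _ hxy] at h1
  have h2 := h.tri.deg x
  have h3 := h.tri.deg y
  rw [h.ha x hx] at h2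
  rw [h.hb y hy] at h3
  have hlt := h.lt
  have hpos : 0 < (a - b) ^ 2 := by
    have : 0 < a - b := by linarith
    positivity
  have hint : ∃ k : ℤ, (a - b) ^ 2 = k := by
    rcases he with ⟨u, hu, v, hv, huv⟩ | ⟨u, hu, v, hv, huv⟩
    · have h4 := h.tri.com u v huv.ne
      rw [h.ha u hu, h.ha v hv, had _ _ huv] at h4
      refine ⟨2 * (((nb G u ∩ nb G v).card : ℤ) - ((nb G x ∩ nb G y).card : ℤ)) -
        (((nb G x).card : ℤ) - ((nb G y).card : ℤ)), ?_⟩
      push_cast
      linear_combination 2 * h1 - 2 * h4 + h2 - h3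
    · have h4 := h.tri.com u v huv.ne
      rw [h.hb u hu, h.hb v hv, had _ _ huv] at h4
      refine ⟨(((nb G x).card : ℤ) - ((nb G y).card : ℤ)) -
        2 * (((nb G x ∩ nb G y).card : ℤ) - ((nb G u ∩ nb G v).card : ℤ)), ?_⟩
      push_cast
      linear_combination 2 * h1 - 2 * h4 - h2 + h3
  obtain ⟨k, hk⟩ := hint
  have h5 : (0 : ℤ) < k := by
    have : (0 : ℝ) < k := by rw [← hk]; exact hpos
    exact_mod_cast this
  have h6 : (1 : ℝ) ≤ (a - b) ^ 2 := by
    rw [hk]
    exact_mod_cast h5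
  nlinarith

/-- constants -/
def Lam (L : ℕ) : ℕ := 16 * L + 10
def QI (L : ℕ) : ℕ := 5 * Lam L ^ 2
def TT (L : ℕ) : ℕ := T1 L 5
def KK (L : ℕ) : ℕ :=
  Lam L * bigM L + C1 L (QI L) + 8 * (TT L + L) + 16 * L + 16 + 4 * TT L
def NN (L : ℕ) : ℕ :=
  2 * C1 L (QI L) + ((18 * TT L) ^ 2 + 18 * TT L) + (1 + 5 * KK L ^ 2 + (5 * KK L ^ 2) ^ 2)

lemma TT_eq (L : ℕ) : TT L = T1 L 5 := rfl

attribute [local irreducible] C1 T1 bigM cc s0 kap Lam QI TT KK NN

lemma Bi.card (h : Bi G α r m θ a b P Q) : Fintype.card V = P.card + Q.card := by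
  rw [← Finset.card_union_of_disjoint h.disj, ← Finset.card_univ]
  congr 1
  ext x
  simp only [Finset.mem_univ, Finset.mem_union, true_iff]
  exact h.cov x

lemma Psd.mono {c d : ℝ} (h : Psd G c) (hcd : c ≤ d) : Psd G d := by
  intro f
  have h1 := h f
  have h2 : 0 ≤ ∑ x, f x ^ 2 := Finset.sum_nonneg (fun x _ => sq_nonneg _)
  nlinarith

/-- the two values are comparable -/
lemma Bi.regimeI (h : Bi G α r m θ a b P Q) (L : ℕ) (hL : 1 ≤ L) (hmL : m ≤ L)
    (hab : a ≤ Lam L * b) (hK : (KK L : ℝ) ≤ a) : Fintype.card V ≤ 2 * C1 L (QI L) := by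
  have ha := h.a_pos
  have hb := h.b_pos
  have hlt := h.lt
  have hLam : (0 : ℝ) < Lam L := by
    unfold Lam
    positivity
  have hK1 : (Lam L : ℝ) * bigM L ≤ a := by
    have : ((Lam L * bigM L : ℕ) : ℝ) ≤ (KK L : ℕ) := by
      unfold KK
      exact_mod_cast (by omega : _ ≤ _)
    push_cast at this
    linarith
  have hbM : (bigM L : ℝ) ≤ b := by
    have : (Lam L : ℝ) * bigM L ≤ Lam L * b := le_trans hK1 hab
    exact le_of_mul_le_mul_left this hLam
  have hbM1 : (1 : ℝ) ≤ bigM L := by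
    have : 1 ≤ bigM L := by
      unfold bigM
      have := Nat.one_le_two_pow (n := (L ^ 2 + 1) + (kap L + 1))
      omega
    exact_mod_cast this
  have hD : Dense G L (QI L) Finset.univ (9 / 2 * a ^ 2) (b ^ 2) := by
    refine ⟨hL, ?_, h.tri.psd.mono hmL, fun x _ => h.deg_le x, ?_, ?_, ?_⟩
    · unfold QI Lam
      nlinarith [Nat.zero_le L]
    · intro x _ y _ hxy hn
      rw [h.tri.com x y hxy]
      have h1 : ad G x y = 0 := by simp [ad, hn]
      rw [h1, mul_zero, zero_add]
      have h2 : ∀ x, b ≤ α x := by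
        intro x
        rcases h.cov x with hx | hx
        · rw [h.ha x hx]
          exact hlt.le
        · rw [h.hb x hx]
      have := h2 x
      have := h2 y
      nlinarith
    · unfold QI
      push_cast
      have h1 : a ^ 2 ≤ (Lam L * b) ^ 2 := by
        apply pow_le_pow_left₀ ha.le hab
      nlinarith
    · nlinarith
  have hnear : ∀ x : V, (Finset.univ.filter (fun y => y ≠ x ∧ ¬ G.Adj x y)).card < C1 L (QI L) :=
    fun x => hD.near x (Finset.mem_univ x)
  have hcount : ∀ x : V, (nb G x).card + (Finset.univ.filter (fun y => y ≠ x ∧ ¬ G.Adj x y)).card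
      + 1 = Fintype.card V := by
    intro x
    have h1 : (Finset.univ.erase x).card = Fintype.card V - 1 := by
      rw [Finset.card_erase_of_mem (Finset.mem_univ _), Finset.card_univ]
    have h2 : Finset.univ.erase x = nb G x ∪
        (Finset.univ.filter (fun y => y ≠ x ∧ ¬ G.Adj x y)) := by
      ext y
      simp only [Finset.mem_erase, Finset.mem_univ, and_true, Finset.mem_union, mem_nb,
        Finset.mem_filter, true_and]
      constructor
      · intro hy
        by_cases hxy : G.Adj x y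
        · exact Or.inl hxy
        · exact Or.inr ⟨hy, hxy⟩
      · rintro (hy | hy)
        · exact hy.ne'
        · exact hy.1
    have h3 : Disjoint (nb G x) (Finset.univ.filter (fun y => y ≠ x ∧ ¬ G.Adj x y)) := by
      rw [Finset.disjoint_left]
      intro y hy hy'
      exact (Finset.mem_filter.1 hy').2.2 ((mem_nb G).1 hy)
    rw [h2, Finset.card_union_of_disjoint h3] at h1
    have h4 : 0 < Fintype.card V := Fintype.card_pos_iff.2 ⟨x⟩
    omega
  by_cases he : (∃ x ∈ P, ∃ y ∈ P, G.Adj x y) ∨ (∃ x ∈ Q, ∃ y ∈ Q, G.Adj x y)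
  · exfalso
    have hgap := h.gap he
    obtain ⟨x, hx⟩ := h.neP
    obtain ⟨y, hy⟩ := h.neQ
    have h1 := h.tri.deg x
    have h2 := h.tri.deg y
    rw [h.ha x hx] at h1
    rw [h.hb y hy] at h2
    have h3 : (nb G x).card < (nb G y).card + C1 L (QI L) := by
      have := hcount x
      have := hcount y
      have := hnear y
      omega
    have h4 : ((nb G x).card : ℝ) < (nb G y).card + C1 L (QI L) := by exact_mod_cast h3
    have h5 : a ≤ a ^ 2 - b ^ 2 := by nlinarith
    have h6 : ((C1 L (QI L) : ℕ) : ℝ) ≤ (KK L : ℕ) := by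
      unfold KK
      exact_mod_cast (by omega : _ ≤ _)
    linarith
  · push Not at he
    have hP : P.card ≤ C1 L (QI L) := by
      obtain ⟨x, hx⟩ := h.neP
      have h1 : P.erase x ⊆ Finset.univ.filter (fun y => y ≠ x ∧ ¬ G.Adj x y) := by
        intro y hy
        rw [Finset.mem_erase] at hy
        exact Finset.mem_filter.2 ⟨Finset.mem_univ _, hy.1, he.1 x hx y hy.2⟩
      have h2 := Finset.card_le_card h1
      have h3 := hnear x
      have h4 := Finset.card_erase_add_one hx
      omega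
    have hQ : Q.card ≤ C1 L (QI L) := by
      obtain ⟨x, hx⟩ := h.neQ
      have h1 : Q.erase x ⊆ Finset.univ.filter (fun y => y ≠ x ∧ ¬ G.Adj x y) := by
        intro y hy
        rw [Finset.mem_erase] at hy
        exact Finset.mem_filter.2 ⟨Finset.mem_univ _, hy.1, he.2 x hx y hy.2⟩
      have h2 := Finset.card_le_card h1
      have h3 := hnear x
      have h4 := Finset.card_erase_add_one hx
      omega
    rw [h.card]
    omega

lemma Bi.nP_ge (h : Bi G α r m θ a b P Q) :
    r * m - a * b + a * ww r m θ a b + 1 ≤ (P.card : ℝ) := by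
  obtain ⟨x, hx⟩ := h.neP
  rw [← h.pp hx]
  have h1 : P ∩ nb G x ⊆ P.erase x := by
    intro y hy
    rw [Finset.mem_inter, mem_nb] at hy
    exact Finset.mem_erase.2 ⟨hy.2.ne', hy.1⟩
  have h2 := Finset.card_le_card h1
  have h3 := Finset.card_erase_add_one hx
  have h4 : (P ∩ nb G x).card + 1 ≤ P.card := by omega
  exact_mod_cast h4

/-- the lower bound for `w` in the second regime, numbers only -/
lemma w_real (a b r m θ w n L : ℝ) (ha : 0 < a) (hb : 0 < b) (hm1 : 1 ≤ m) (hmL : m ≤ L)
    (hr1 : -1 < r) (hr3 : r * m ≤ 7 / 2 * (a * b))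
    (hr4 : (r * m - a * b = r ∧ 0 < r) ∨ r * m - a * b = -m)
    (hth : θ = b ^ 2 + r * m + (a - b) * w)
    (hnP : n * a = w * (θ + r * m - a * b - r + m)) (hge : r * m - a * b + a * w + 1 ≤ n)
    (hn1 : 1 ≤ n) (hw0 : 0 ≤ w) (hLam : (16 * L + 10) * b ≤ a) (hK : 16 * L + 16 ≤ a) :
    a / 4 ≤ w := by
  have hL1 : 1 ≤ L := le_trans hm1 hmL
  have hb26 : 26 * b ≤ a := by
    have : 16 * 1 * b ≤ 16 * L * b := by
      apply mul_le_mul_of_nonneg_right _ hb.le
      linarith
    linarith
  have h10 : a * (26 * b) ≤ a * a := mul_le_mul_of_nonneg_left hb26 ha.le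
  have hbb : b * b ≤ a * b := mul_le_mul_of_nonneg_right (by linarith) hb.le
  have ha32 : 32 ≤ a := by linarith
  have ha2 : 32 * a ≤ a * a := mul_le_mul_of_nonneg_right ha32 ha.le
  have hbw : 0 ≤ b * w := mul_nonneg hb.le hw0
  rcases hr4 with ⟨h1, hr0⟩ | h1
  · -- case `θ' = r`
    have h2 : θ + r * m - a * b - r + m = θ + m := by linarith
    rw [h2] at hnP
    have h3 : a * (r + a * w + 1) ≤ w * (θ + m) := by
      rw [← hnP, mul_comm n a]
      exact mul_le_mul_of_nonneg_left (by linarith) ha.le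
    have h4 : 0 < w * (θ + m - a * a) := by
      have : 0 < a * (r + 1) := mul_pos ha (by linarith)
      have e1 : a * (r + a * w + 1) = a * (r + 1) + w * (a * a) := by ring
      have e2 : w * (θ + m - a * a) = w * (θ + m) - w * (a * a) := by ring
      rw [e2]
      linarith
    have h5 : 0 < θ + m - a * a := by
      by_contra hcon
      push Not at hcon
      have : w * (θ + m - a * a) ≤ 0 := mul_nonpos_of_nonneg_of_nonpos hw0 hcon
      linarith
    have h7 : a * a - m - b * b - 7 / 2 * (a * b) < a * w := by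
      have e1 : (a - b) * w = a * w - b * w := by ring
      have e2 : b ^ 2 = b * b := by ring
      rw [e1, e2] at hth
      linarith
    have h8 : m ≤ a * a / 16 := by linarith
    have h11 : a * (a / 4) ≤ a * w := by
      have e1 : a * (a / 4) = a * a / 4 := by ring
      rw [e1]
      have e2 : a * (26 * b) = 26 * (a * b) := by ring
      rw [e2] at h10
      linarith
    exact le_of_mul_le_mul_left h11 ha
  · -- case `θ' = -m`
    have h2 : θ + r * m - a * b - r + m = θ - r := by linarith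
    rw [h2] at hnP
    by_contra hcon
    push Not at hcon
    have e26 : a * (26 * b) = 26 * (a * b) := by ring
    rw [e26] at h10
    have h3 : θ - r ≤ b * b + a * b + 1 + a * w := by
      have e1 : (a - b) * w = a * w - b * w := by ring
      have e2 : b ^ 2 = b * b := by ring
      rw [e1, e2] at hth
      linarith
    have h3' : θ - r ≤ a * a / 2 := by
      have h4 : a * w ≤ a * (a / 4) := mul_le_mul_of_nonneg_left hcon.le ha.le
      have e1 : a * (a / 4) = a * a / 4 := by ring
      rw [e1] at h4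
      linarith
    have h4 : a * (a * w - m + 1) ≤ w * (θ - r) := by
      rw [← hnP, mul_comm n a]
      exact mul_le_mul_of_nonneg_left (by linarith) ha.le
    have h5 : w * (a * a / 2) ≤ a * L := by
      have h6 : w * (θ - r) ≤ w * (a * a / 2) := mul_le_mul_of_nonneg_left h3' hw0
      have e1 : a * (a * w - m + 1) = w * (a * a) - a * m + a := by ring
      have e2 : w * (a * a / 2) = w * (a * a) / 2 := by ring
      have h7 : a * m ≤ a * L := mul_le_mul_of_nonneg_left hmL ha.le
      rw [e1] at h4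
      rw [e2] at h6 ⊢
      linarith
    have h6 : a * w ≤ 2 * L := by
      have h7 : a * (a * w) ≤ a * (2 * L) := by
        have e1 : a * (a * w) = 2 * (w * (a * a / 2)) := by ring
        have e2 : a * (2 * L) = 2 * (a * L) := by ring
        rw [e1, e2]
        linarith
      exact le_of_mul_le_mul_left h7 ha
    have h7 : a ≤ w * (θ - r) := by
      rw [← hnP]
      have : 1 * a ≤ n * a := mul_le_mul_of_nonneg_right hn1 ha.le
      linarith
    have h8 : w * (θ - r) ≤ w * (2 * (a * b) + 1 + 2 * L) := by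
      apply mul_le_mul_of_nonneg_left _ hw0
      linarith
    have hab : 0 < a * b := mul_pos ha hb
    have h9 : a * a ≤ 2 * L * (2 * (a * b) + 1 + 2 * L) := by
      have h10 : a * (w * (2 * (a * b) + 1 + 2 * L)) = (a * w) * (2 * (a * b) + 1 + 2 * L) := by
        ring
      have h11 : (a * w) * (2 * (a * b) + 1 + 2 * L) ≤ (2 * L) * (2 * (a * b) + 1 + 2 * L) := by
        apply mul_le_mul_of_nonneg_right h6
        linarith
      have h12 : a * a ≤ a * (w * (2 * (a * b) + 1 + 2 * L)) :=
        mul_le_mul_of_nonneg_left (le_trans h7 h8) ha.le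
      linarith
    have h13 : 4 * L * (a * b) ≤ a * a / 4 := by
      have h14 : 16 * L * b ≤ a := by linarith
      have h15 : a * (16 * L * b) ≤ a * a := mul_le_mul_of_nonneg_left h14 ha.le
      have e1 : a * (16 * L * b) = 4 * (4 * L * (a * b)) := by ring
      rw [e1] at h15
      linarith
    have h15 : 2 * L * (1 + 2 * L) ≤ a * a / 4 := by
      have h16 : (16 * L + 16) * (16 * L + 16) ≤ a * a :=
        mul_le_mul hK hK (by linarith) ha.le
      have e1 : (16 * L + 16) * (16 * L + 16) = 256 * (L * L) + 512 * L + 256 := by ring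
      have e2 : 2 * L * (1 + 2 * L) = 2 * L + 4 * (L * L) := by ring
      have h17 : 0 ≤ L * L := by positivity
      rw [e1] at h16
      rw [e2]
      linarith
    have e3 : 2 * L * (2 * (a * b) + 1 + 2 * L) = 4 * L * (a * b) + 2 * L * (1 + 2 * L) := by ring
    rw [e3] at h9
    have : 0 < a * a := mul_pos ha ha
    linarith

lemma Bi.w_nonneg (h : Bi G α r m θ a b P Q) : 0 ≤ ww r m θ a b := by
  obtain ⟨y, hy⟩ := h.neQ
  have h1 := h.qp hy
  have h2 : 0 ≤ b * ww r m θ a b := by
    rw [← h1]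
    exact Nat.cast_nonneg _
  by_contra hcon
  push Not at hcon
  have : b * ww r m θ a b < 0 := mul_neg_of_pos_of_neg h.b_pos hcon
  linarith

lemma Bi.w_ge (h : Bi G α r m θ a b P Q) (L : ℕ) (hmL : m ≤ L)
    (hLam : (16 * L + 10 : ℝ) * b ≤ a) (hK : (16 * L + 16 : ℝ) ≤ a) :
    a / 4 ≤ ww r m θ a b := by
  obtain ⟨hm1, hm2⟩ := h.m_bounds
  obtain ⟨hr1, hr2, hr3, hr4⟩ := h.r_bounds
  have hn1 : (1 : ℝ) ≤ P.card := by
    have : 1 ≤ P.card := Finset.card_pos.2 h.neP
    exact_mod_cast this
  exact w_real a b r m θ _ P.card L h.a_pos h.b_pos hm1 hmL hr1 hr3 hr4 h.theta h.nP h.nP_ge hn1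
    h.w_nonneg hLam hK

/-- the first value is much larger than the second -/
lemma Bi.regimeII (h : Bi G α r m θ a b P Q) (L : ℕ) (hL : 1 ≤ L) (hmL : m ≤ L)
    (hab : Lam L * b ≤ a) (hK : (KK L : ℝ) ≤ a) :
    Fintype.card V ≤ (18 * TT L) ^ 2 + 18 * TT L := by
  have ha := h.a_pos
  have hb := h.b_pos
  have hlt := h.lt
  obtain ⟨hm1, hm2⟩ := h.m_bounds
  obtain ⟨hr1, hr2, hr3, hr4⟩ := h.r_bounds
  have hKs : (Lam L * bigM L : ℝ) ≤ a ∧ (8 * (TT L + L) : ℝ) ≤ a ∧ (16 * L + 16 : ℝ) ≤ a ∧
      (4 * TT L : ℝ) ≤ a := by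
    have h1 : ((KK L : ℕ) : ℝ) = Lam L * bigM L + C1 L (QI L) + 8 * (TT L + L) + 16 * L + 16 +
        4 * TT L := by
      unfold KK
      push_cast
      ring
    rw [h1] at hK
    have h2 : (0 : ℝ) ≤ Lam L * bigM L := by positivity
    have h3 : (0 : ℝ) ≤ C1 L (QI L) := by positivity
    have h4 : (0 : ℝ) ≤ TT L := by positivity
    have h5 : (0 : ℝ) ≤ L := by positivity
    refine ⟨?_, ?_, ?_, ?_⟩ <;> linarith
  obtain ⟨hK1, hK2, hK3, hK4⟩ := hKs
  have hbM1 : (bigM L : ℝ) ≤ a := by
    have h1 : (1 : ℝ) ≤ Lam L := by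
      unfold Lam
      push_cast
      have : (0 : ℝ) ≤ L := by positivity
      linarith
    have h2 : (0 : ℝ) ≤ bigM L := (bigM_pos L).le
    nlinarith
  have ha1 : 1 ≤ a := by
    have : (0 : ℝ) ≤ L := by positivity
    linarith
  have hD : Dense G L 5 P (9 / 2 * a ^ 2) (a ^ 2) := by
    refine ⟨hL, by norm_num, h.tri.psd.mono hmL, fun x _ => h.deg_le x, ?_, ?_, ?_⟩
    · intro x hx y hy hxy hn
      rw [h.tri.com x y hxy]
      have h1 : ad G x y = 0 := by simp [ad, hn]
      rw [h1, mul_zero, zero_add, h.ha x hx, h.ha y hy]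
      nlinarith
    · push_cast
      nlinarith
    · nlinarith
  have hge := h.nP_ge
  obtain ⟨y, hy⟩ := h.neQ
  have hqp := h.qp hy
  have hLr : (1 : ℝ) ≤ L := by exact_mod_cast hL
  have hLam : (16 * L + 10 : ℝ) * b ≤ a := by
    have : ((Lam L : ℕ) : ℝ) = 16 * L + 10 := by
      unfold Lam
      push_cast
      ring
    rw [this] at hab
    exact hab
  have hw := h.w_ge L hmL hLam hK3
  have hb26 : 26 * b ≤ a := by
    have : 16 * 1 * b ≤ 16 * L * b := by
      apply mul_le_mul_of_nonneg_right _ hb.le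
      linarith
    linarith
  -- the product is bounded
  have hprod : a * b < 4 * TT L := by
    by_contra hcon
    push Not at hcon
    apply hD.dich y (h.notMem hy)
    · have h1 : ((T1 L 5 : ℕ) : ℝ) ≤ ((P ∩ nb G y).card : ℝ) := by
        rw [hqp]
        have h2 : b * (a / 4) ≤ b * ww r m θ a b := mul_le_mul_of_nonneg_left hw hb.le
        have h3 : ((T1 L 5 : ℕ) : ℝ) = TT L := by rw [TT_eq]
        rw [h3]
        linarith
      exact_mod_cast h1
    · have h1 : (P \ nb G y).card + (P ∩ nb G y).card = P.card :=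
        Finset.card_sdiff_add_card_inter _ _
      have h1' : ((P \ nb G y).card : ℝ) + ((P ∩ nb G y).card : ℝ) = P.card := by
        exact_mod_cast h1
      rw [hqp] at h1'
      have h2 : ((T1 L 5 : ℕ) : ℝ) ≤ ((P \ nb G y).card : ℝ) := by
        have h3 : ((T1 L 5 : ℕ) : ℝ) = TT L := by rw [TT_eq]
        rw [h3]
        have h4 : -m ≤ r * m - a * b := by
          rcases hr4 with ⟨h5, h6⟩ | h5 <;> linarith
        have h5 : (a - b) * (a / 4) ≤ (a - b) * ww r m θ a b :=
          mul_le_mul_of_nonneg_left hw (by linarith)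
        have h6 : a * a / 8 ≤ (a - b) * (a / 4) := by
          have h61 : (a / 2) * (a / 4) ≤ (a - b) * (a / 4) :=
            mul_le_mul_of_nonneg_right (by linarith) (by linarith)
          linarith
        have h7 : (TT L + L : ℝ) ≤ a * a / 8 := by
          have h8 : (8 * (TT L + L) : ℝ) * 1 ≤ a * a := mul_le_mul hK2 ha1 (by norm_num) ha.le
          linarith
        have h9 : (a - b) * ww r m θ a b = a * ww r m θ a b - b * ww r m θ a b := by ring
        rw [h9] at h5
        linarith
      exact_mod_cast h2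
  -- degrees in `Q`
  have hdegQ : ∀ z ∈ Q, (nb G z).card < 18 * TT L := by
    intro z hz
    have h1 := h.tri.deg z
    rw [h.hb z hz] at h1
    have h2 : b ^ 2 ≤ a * b := by
      rw [sq]
      exact mul_le_mul_of_nonneg_right hlt.le hb.le
    have h3 : ((nb G z).card : ℝ) < ((18 * TT L : ℕ) : ℝ) := by
      push_cast
      linarith
    exact_mod_cast h3
  -- `Q` is a clique
  have hQc : ∀ z ∈ Q, ∀ z' ∈ Q, z ≠ z' → G.Adj z z' := by
    intro z hz z' hz' hne
    by_contra hn
    have h1 := h.tri.com z z' hne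
    have h2 : ad G z z' = 0 := by simp [ad, hn]
    rw [h2, mul_zero, zero_add, h.hb z hz, h.hb z' hz'] at h1
    have h3 : (0 : ℝ) < ((nb G z ∩ nb G z').card : ℝ) := by
      rw [h1]
      positivity
    have h4 : 0 < (nb G z ∩ nb G z').card := by exact_mod_cast h3
    have h5 : (1 : ℝ) ≤ ((nb G z ∩ nb G z').card : ℝ) := by exact_mod_cast h4
    rw [h1] at h5
    have h6 : 1 ≤ b := by
      by_contra hcon
      push Not at hcon
      have : b * b < 1 * 1 := mul_lt_mul'' hcon hcon hb.le hb.le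
      linarith
    have h7 : a * 1 ≤ a * b := mul_le_mul_of_nonneg_left h6 ha.le
    linarith
  have hQcard : Q.card ≤ 18 * TT L := by
    have h1 : Q.erase y ⊆ nb G y := by
      intro z hz
      rw [Finset.mem_erase] at hz
      exact (mem_nb G).2 (hQc y hy z hz.2 hz.1.symm)
    have h2 := Finset.card_le_card h1
    have h3 := Finset.card_erase_add_one hy
    have h4 := hdegQ y hy
    omega
  have hPcard : P.card ≤ (18 * TT L) ^ 2 := by
    have h1 : P ⊆ Q.biUnion (fun z => nb G z) := by
      intro x hx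
      obtain ⟨x0, hx0, y0, hy0, hadj⟩ := h.cross
      have h2 := h.pq hx0
      have h3 := h.pq hx
      rw [← h2] at h3
      have h4 : (Q ∩ nb G x).card = (Q ∩ nb G x0).card := by exact_mod_cast h3
      have h5 : 0 < (Q ∩ nb G x0).card :=
        Finset.card_pos.2 ⟨y0, Finset.mem_inter.2 ⟨hy0, (mem_nb G).2 hadj⟩⟩
      rw [← h4] at h5
      obtain ⟨z, hz⟩ := Finset.card_pos.1 h5
      rw [Finset.mem_inter, mem_nb] at hz
      exact Finset.mem_biUnion.2 ⟨z, hz.1, (mem_nb G).2 hz.2.symm⟩
    calc P.card ≤ (Q.biUnion (fun z => nb G z)).card := Finset.card_le_card h1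
      _ ≤ ∑ z ∈ Q, (nb G z).card := Finset.card_biUnion_le
      _ ≤ ∑ z ∈ Q, 18 * TT L := Finset.sum_le_sum (fun z hz => (hdegQ z hz).le)
      _ = Q.card * (18 * TT L) := by simp
      _ ≤ (18 * TT L) * (18 * TT L) := Nat.mul_le_mul_right _ hQcard
      _ = (18 * TT L) ^ 2 := by ring
  rw [h.card]
  omega

/-- small values -/
lemma Bi.small (h : Bi G α r m θ a b P Q) (K : ℕ) (hK : a ≤ K) :
    Fintype.card V ≤ 1 + 5 * K ^ 2 + (5 * K ^ 2) ^ 2 := by
  have ha := h.a_pos
  have hdeg : ∀ x, (nb G x).card ≤ 5 * K ^ 2 := by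
    intro x
    have h1 := h.deg_le x
    have h2 : a ^ 2 ≤ (K : ℝ) ^ 2 := pow_le_pow_left₀ ha.le hK 2
    have h3 : ((nb G x).card : ℝ) ≤ ((5 * K ^ 2 : ℕ) : ℝ) := by
      push_cast
      nlinarith
    exact_mod_cast h3
  obtain ⟨x, _⟩ := h.neP
  have h1 : (Finset.univ : Finset V) ⊆ {x} ∪ nb G x ∪ (nb G x).biUnion (fun z => nb G z) := by
    intro y _
    by_cases hxy : x = y
    · subst hxy
      simp
    by_cases hadj : G.Adj x y
    · apply Finset.mem_union_left
      apply Finset.mem_union_right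
      exact (mem_nb G).2 hadj
    · have h2 := h.tri.com x y hxy
      have h3 : ad G x y = 0 := by simp [ad, hadj]
      rw [h3, mul_zero, zero_add] at h2
      have h4 : (0 : ℝ) < ((nb G x ∩ nb G y).card : ℝ) := by
        rw [h2]
        exact mul_pos (h.tri.pos x) (h.tri.pos y)
      have h5 : 0 < (nb G x ∩ nb G y).card := by exact_mod_cast h4
      obtain ⟨z, hz⟩ := Finset.card_pos.1 h5
      rw [Finset.mem_inter, mem_nb, mem_nb] at hz
      apply Finset.mem_union_right
      exact Finset.mem_biUnion.2 ⟨z, (mem_nb G).2 hz.1, (mem_nb G).2 hz.2.symm⟩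
  have h2 := Finset.card_le_card h1
  rw [Finset.card_univ] at h2
  have h3 : ((nb G x).biUnion (fun z => nb G z)).card ≤ (5 * K ^ 2) ^ 2 := by
    calc ((nb G x).biUnion (fun z => nb G z)).card
        ≤ ∑ z ∈ nb G x, (nb G z).card := Finset.card_biUnion_le
      _ ≤ ∑ z ∈ nb G x, 5 * K ^ 2 := Finset.sum_le_sum (fun z _ => hdeg z)
      _ = (nb G x).card * (5 * K ^ 2) := by simp
      _ ≤ (5 * K ^ 2) * (5 * K ^ 2) := Nat.mul_le_mul_right _ (hdeg x)
      _ = (5 * K ^ 2) ^ 2 := by ring
  have h4 : ({x} ∪ nb G x ∪ (nb G x).biUnion (fun z => nb G z)).card ≤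
      1 + (nb G x).card + ((nb G x).biUnion (fun z => nb G z)).card := by
    calc ({x} ∪ nb G x ∪ (nb G x).biUnion (fun z => nb G z)).card
        ≤ ({x} ∪ nb G x).card + ((nb G x).biUnion (fun z => nb G z)).card :=
          Finset.card_union_le _ _
      _ ≤ _ := by
          have := Finset.card_union_le {x} (nb G x)
          rw [Finset.card_singleton] at this
          omega
  have h5 := hdeg x
  omega

theorem Bi.bound (h : Bi G α r m θ a b P Q) (L : ℕ) (hmL : m ≤ L) :
    Fintype.card V ≤ NN L := by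
  obtain ⟨hm1, hm2⟩ := h.m_bounds
  have hL : 1 ≤ L := by
    have : (1 : ℝ) ≤ L := le_trans hm1 hmL
    exact_mod_cast this
  unfold NN
  rcases le_total a (KK L : ℝ) with h1 | h1
  · have := h.small (KK L) h1
    omega
  · rcases le_total a (Lam L * b) with h2 | h2
    · have := h.regimeI L hL hmL h2 h1
      omega
    · have := h.regimeII L hL hmL h2 h1
      omega

end Pool.Agent.H253_Bi
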