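import Pool.Agent.H253_Bi.Comb

/-! Vertex sets in which non-adjacent vertices have many common neighbours are nearly complete. -/

open Finset

namespace Pool.Agent.H253_Bi

variable {V : Type*} [DecidableEq V] [Fintype V]

/-- the neighbours of `x` -/
def nb (G : SimpleGraph V) [DecidableRel G.Adj] (x : V) : Finset V :=
  Finset.univ.filter (fun y => G.Adj x y)

lemma mem_nb (G : SimpleGraph V) [DecidableRel G.Adj] {x y : V} : y ∈ nb G x ↔ G.Adj x y := by
  simp [nb]

/-- the constants -/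
def kap (L : ℕ) : ℕ := 2 * L ^ 2
def cc (L Q : ℕ) : ℕ := 2 * Q * kap L + (kap L + 1) ^ 2
def s0 (L Q : ℕ) : ℕ := Q * L ^ 2 + 1
def C1 (L Q : ℕ) : ℕ := 2 ^ (s0 L Q + cc L Q)
def bigM (L : ℕ) : ℕ := 2 * 2 ^ ((L ^ 2 + 1) + (kap L + 1))

/-- double counting -/
lemma dc (G : SimpleGraph V) [DecidableRel G.Adj] (x : V) (S : Finset V) :
    ∑ y ∈ S, (nb G x ∩ nb G y).card = ∑ z ∈ nb G x, (S ∩ nb G z).card := by
  have h1 : ∀ y ∈ S, (nb G x ∩ nb G y).card = ∑ z ∈ nb G x, if G.Adj y z then 1 else 0 := by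
    intro y _
    rw [Finset.card_eq_sum_ones, ← Finset.sum_filter]
    apply Finset.sum_congr _ (fun _ _ => rfl)
    ext z
    simp [nb]
  have h2 : ∀ z ∈ nb G x, (S ∩ nb G z).card = ∑ y ∈ S, if G.Adj y z then 1 else 0 := by
    intro z _
    rw [Finset.card_eq_sum_ones, ← Finset.sum_filter]
    apply Finset.sum_congr _ (fun _ _ => rfl)
    ext y
    simp [nb, G.adj_comm]
  rw [Finset.sum_congr rfl h1, Finset.sum_congr rfl h2, Finset.sum_comm]

variable (G : SimpleGraph V) [DecidableRel G.Adj]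

/-- the hypothesis on the set `U` -/
structure Dense (L Q : ℕ) (U : Finset V) (D μ : ℝ) : Prop where
  hL : 1 ≤ L
  hQ1 : 1 ≤ Q
  psd : Psd G L
  deg : ∀ x ∈ U, ((nb G x).card : ℝ) ≤ D
  mu : ∀ x ∈ U, ∀ y ∈ U, x ≠ y → ¬ G.Adj x y → μ ≤ ((nb G x ∩ nb G y).card : ℝ)
  rat : D ≤ Q * μ
  big : (bigM L : ℝ) ≤ μ

variable {G}

lemma Dense.mono {L Q : ℕ} {U : Finset V} {D μ : ℝ} (h : Dense G L Q U D μ) {W : Finset V}
    (hW : W ⊆ U) : Dense G L Q W D μ where
  hL := h.hL
  hQ1 := h.hQ1
  psd := h.psd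
  deg x hx := h.deg x (hW hx)
  mu x hx y hy := h.mu x (hW hx) y (hW hy)
  rat := h.rat
  big := h.big

lemma bigM_pos (L : ℕ) : (0 : ℝ) < bigM L := by
  unfold bigM
  positivity

/-- cocliques in `U` are small -/
lemma Dense.coclique {L Q : ℕ} {U : Finset V} {D μ : ℝ} (h : Dense G L Q U D μ) (S : Finset V)
    (hS : S ⊆ U) (hI : Ind G S) : S.card < s0 L Q := by
  have hμ : 0 < μ := lt_of_lt_of_le (bigM_pos L) h.big
  rcases S.eq_empty_or_nonempty with rfl | ⟨x, hx⟩
  · simp [s0]
  have h1 := dc G x (S.erase x)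
  have h2 : ∀ z ∈ nb G x, ((S.erase x) ∩ nb G z).card + 1 ≤ L ^ 2 := by
    intro z hz
    have hz' : G.Adj x z := (mem_nb G).1 hz
    have h3 := claw G L h.psd z (S ∩ nb G z) (fun a ha b hb => hI a (Finset.mem_inter.1 ha).1 b
      (Finset.mem_inter.1 hb).1) (fun a ha => (mem_nb G).1 (Finset.mem_inter.1 ha).2)
    have h4 : insert x ((S.erase x) ∩ nb G z) ⊆ S ∩ nb G z := by
      intro a ha
      rcases Finset.mem_insert.1 ha with h5 | h5
      · rw [h5]
        exact Finset.mem_inter.2 ⟨hx, (mem_nb G).2 hz'.symm⟩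
      · rw [Finset.mem_inter] at h5 ⊢
        exact ⟨Finset.mem_of_mem_erase h5.1, h5.2⟩
    have h5 := Finset.card_le_card h4
    rw [Finset.card_insert_of_notMem (by simp)] at h5
    omega
  have h3 : (∑ y ∈ S.erase x, (nb G x ∩ nb G y).card : ℕ) ≤ (nb G x).card * (L ^ 2 - 1) := by
    rw [h1]
    calc ∑ z ∈ nb G x, (S.erase x ∩ nb G z).card ≤ ∑ z ∈ nb G x, (L ^ 2 - 1) := by
          apply Finset.sum_le_sum
          intro z hz
          have := h2 z hz
          omega
      _ = (nb G x).card * (L ^ 2 - 1) := by simp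
  have h4 : ((S.erase x).card : ℝ) * μ ≤ ((∑ y ∈ S.erase x, (nb G x ∩ nb G y).card : ℕ) : ℝ) := by
    push_cast
    rw [← nsmul_eq_mul, ← Finset.sum_const]
    apply Finset.sum_le_sum
    intro y hy
    have hy' := Finset.mem_erase.1 hy
    exact h.mu x (hS hx) y (hS hy'.2) (Ne.symm hy'.1) (hI x hx y hy'.2)
  have h5 : ((∑ y ∈ S.erase x, (nb G x ∩ nb G y).card : ℕ) : ℝ) ≤
      (Q * μ) * ((L : ℝ) ^ 2 - 1) := by
    have h6 : (1 : ℝ) ≤ (L : ℝ) ^ 2 := by
      have : (1 : ℝ) ≤ L := by exact_mod_cast h.hL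
      nlinarith
    calc ((∑ y ∈ S.erase x, (nb G x ∩ nb G y).card : ℕ) : ℝ)
        ≤ (((nb G x).card * (L ^ 2 - 1) : ℕ) : ℝ) := by exact_mod_cast h3
      _ = ((nb G x).card : ℝ) * ((L : ℝ) ^ 2 - 1) := by
          have h7 : 1 ≤ L ^ 2 := Nat.one_le_pow _ _ h.hL
          push_cast [Nat.cast_sub h7]
          ring
      _ ≤ (Q * μ) * ((L : ℝ) ^ 2 - 1) := by
          apply mul_le_mul_of_nonneg_right _ (by linarith)
          exact le_trans (h.deg x (hS hx)) h.rat
  have h6 : ((S.erase x).card : ℝ) ≤ Q * ((L : ℝ) ^ 2 - 1) := by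
    have h7 : ((S.erase x).card : ℝ) * μ ≤ (Q * ((L : ℝ) ^ 2 - 1)) * μ := by linarith
    exact le_of_mul_le_mul_right h7 hμ
  have h7 : ((S.erase x).card : ℝ) + 1 = S.card := by
    have := Finset.card_erase_add_one hx
    exact_mod_cast this
  have h8 : (S.card : ℝ) < (s0 L Q : ℕ) := by
    unfold s0
    push_cast
    have h9 : (1 : ℝ) ≤ Q := by exact_mod_cast h.hQ1
    nlinarith
  exact_mod_cast h8

/-- no vertex of `U` misses a large clique of `U` -/
lemma Dense.noclique {L Q : ℕ} {U : Finset V} {D μ : ℝ} (h : Dense G L Q U D μ) (x : V)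
    (hx : x ∈ U) (K : Finset V) (hK : K ⊆ U) (hC : Clq G K) (hxK : ∀ y ∈ K, y ≠ x ∧ ¬ G.Adj x y)
    (hc : cc L Q ≤ K.card) : False := by
  have hμ : 0 < μ := lt_of_lt_of_le (bigM_pos L) h.big
  set κ := kap L with hκ
  set Z := (nb G x).filter (fun z => K.card ≤ (K ∩ nb G z).card + κ) with hZ
  -- dichotomy
  have hdi : ∀ z ∈ nb G x, z ∉ Z → (K ∩ nb G z).card ≤ κ := by
    intro z hz hzZ
    by_contra hcon
    push Not at hcon
    have h1 : (K ∩ nb G z).card + κ < K.card := by
      by_contra h2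
      push Not at h2
      exact hzZ (Finset.mem_filter.2 ⟨hz, h2⟩)
    have h2 : (K \ nb G z).card + (K ∩ nb G z).card = K.card := Finset.card_sdiff_add_card_inter _ _
    apply clq G L h.hL h.psd z (K ∩ nb G z) (K \ nb G z)
    · have : K ∩ nb G z ∪ K \ nb G z = K := by
        ext a
        simp only [Finset.mem_union, Finset.mem_inter, Finset.mem_sdiff]
        tauto
      rw [this]
      exact hC
    · intro a ha
      exact (mem_nb G).1 (Finset.mem_inter.1 ha).2
    · intro a ha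
      rw [Finset.mem_sdiff, mem_nb] at ha
      refine ⟨?_, ha.2⟩
      rintro rfl
      exact (hxK a ha.1).2 ((mem_nb G).1 hz)
    · exact hcon
    · have : kap L = 2 * L ^ 2 := rfl
      omega
  have h1 := dc G x K
  have h2 : (K.card : ℝ) * μ ≤ (∑ y ∈ K, (nb G x ∩ nb G y).card : ℕ) := by
    push_cast
    rw [← nsmul_eq_mul, ← Finset.sum_const]
    apply Finset.sum_le_sum
    intro y hy
    exact h.mu x hx y (hK hy) (Ne.symm (hxK y hy).1) (hxK y hy).2
  have h3 : (∑ z ∈ nb G x, (K ∩ nb G z).card) ≤ Z.card * K.card + (nb G x).card * κ := by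
    have h4 : ∀ z ∈ nb G x, (K ∩ nb G z).card ≤ (if z ∈ Z then K.card else 0) + κ := by
      intro z hz
      by_cases hzZ : z ∈ Z
      · rw [if_pos hzZ]
        have := Finset.card_le_card (Finset.inter_subset_left (s₁ := K) (s₂ := nb G z))
        omega
      · rw [if_neg hzZ]
        have := hdi z hz hzZ
        omega
    calc ∑ z ∈ nb G x, (K ∩ nb G z).card
        ≤ ∑ z ∈ nb G x, ((if z ∈ Z then K.card else 0) + κ) := Finset.sum_le_sum h4
      _ = Z.card * K.card + (nb G x).card * κ := by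
          rw [Finset.sum_add_distrib, Finset.sum_ite_mem]
          have : nb G x ∩ Z = Z := by
            rw [Finset.inter_eq_right]
            exact Finset.filter_subset _ _
          rw [this]
          simp
  have h4 : (K.card : ℝ) * μ ≤ Z.card * K.card + (Q * μ) * κ := by
    have h5 : ((∑ y ∈ K, (nb G x ∩ nb G y).card : ℕ) : ℝ) ≤
        ((Z.card * K.card + (nb G x).card * κ : ℕ) : ℝ) := by
      rw [h1]
      exact_mod_cast h3
    push_cast at h5
    have h6 : ((nb G x).card : ℝ) * κ ≤ (Q * μ) * κ :=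
      mul_le_mul_of_nonneg_right (le_trans (h.deg x hx) h.rat) (by positivity)
    push_cast at h2
    linarith
  have hcr : (2 * Q * κ : ℝ) + (κ + 1) ^ 2 ≤ K.card := by
    have : ((cc L Q : ℕ) : ℝ) ≤ K.card := by exact_mod_cast hc
    unfold cc at this
    push_cast at this
    exact this
  have hKpos : (0 : ℝ) < K.card := by
    have : (0 : ℝ) ≤ 2 * Q * κ := by positivity
    have h' : (0 : ℝ) < ((κ : ℝ) + 1) ^ 2 := by positivity
    linarith
  have h5 : μ / 2 ≤ Z.card := by
    have h6 : (Q * μ) * κ ≤ K.card * μ / 2 := by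
      have : (Q : ℝ) * κ ≤ K.card / 2 := by
        have h' : (0 : ℝ) ≤ ((κ : ℝ) + 1) ^ 2 := by positivity
        linarith
      nlinarith
    have h7 : (μ / 2) * K.card ≤ Z.card * K.card := by linarith
    exact le_of_mul_le_mul_right h7 hKpos
  have h6 : 2 ^ ((L ^ 2 + 1) + (kap L + 1)) ≤ Z.card := by
    have h7 : ((2 ^ ((L ^ 2 + 1) + (kap L + 1)) : ℕ) : ℝ) ≤ Z.card := by
      have h8 := h.big
      unfold bigM at h8
      push_cast at h8 ⊢
      linarith
    exact_mod_cast h7
  rcases ramsey G _ _ _ rfl Z h6 with ⟨S, hS, hS1, hS2⟩ | ⟨K', hK', hK1, hK2⟩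
  · have h7 := claw G L h.psd x S hS2 (fun a ha => (mem_nb G).1 (Finset.mem_filter.1 (hS ha)).1)
    omega
  · -- a clique among the vertices `Z`
    set K0 := K.filter (fun y => ∀ z ∈ K', G.Adj z y) with hK0
    have h7 : (K \ K0).card ≤ K'.card * κ := by
      have h8 : K \ K0 ⊆ K'.biUnion (fun z => K \ nb G z) := by
        intro y hy
        rw [Finset.mem_sdiff, hK0, Finset.mem_filter] at hy
        push Not at hy
        obtain ⟨z, hz, hzy⟩ := hy.2 hy.1
        rw [Finset.mem_biUnion]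
        exact ⟨z, hz, Finset.mem_sdiff.2 ⟨hy.1, fun hh => hzy ((mem_nb G).1 hh)⟩⟩
      calc (K \ K0).card ≤ (K'.biUnion (fun z => K \ nb G z)).card := Finset.card_le_card h8
        _ ≤ ∑ z ∈ K', (K \ nb G z).card := Finset.card_biUnion_le
        _ ≤ ∑ z ∈ K', κ := by
            apply Finset.sum_le_sum
            intro z hz
            have h9 := (Finset.mem_filter.1 (hK' hz)).2
            have h10 : (K \ nb G z).card + (K ∩ nb G z).card = K.card :=
              Finset.card_sdiff_add_card_inter _ _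
            omega
        _ = K'.card * κ := by simp
    have h8 : K0.card + (K \ K0).card = K.card := by
      have h9 : (K \ K0).card + (K ∩ K0).card = K.card := Finset.card_sdiff_add_card_inter _ _
      have h10 : K ∩ K0 = K0 := by
        rw [Finset.inter_eq_right]
        exact Finset.filter_subset _ _
      rw [h10] at h9
      omega
    have h9 : κ + 1 ≤ K0.card := by
      rw [hK1] at h7
      have h10 : 2 * Q * κ + (κ + 1) ^ 2 ≤ K.card := hc
      have h11 : (κ + 1) ^ 2 = (κ + 1) * κ + (κ + 1) := by ring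
      have h12 : (kap L + 1) * κ = (κ + 1) * κ := by rw [hκ]
      rw [h12] at h7
      have : 0 ≤ 2 * Q * κ := Nat.zero_le _
      omega
    have hkap : kap L = 2 * L ^ 2 := rfl
    apply clq G L h.hL h.psd x K' K0
    · intro a ha b hb hab
      rcases Finset.mem_union.1 ha with ha | ha
      · rcases Finset.mem_union.1 hb with hb | hb
        · exact hK2 a ha b hb hab
        · exact (Finset.mem_filter.1 hb).2 a ha
      · rcases Finset.mem_union.1 hb with hb | hb
        · exact ((Finset.mem_filter.1 ha).2 b hb).symm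
        · exact hC a (Finset.mem_filter.1 ha).1 b (Finset.mem_filter.1 hb).1 hab
    · intro a ha
      exact (mem_nb G).1 (Finset.mem_filter.1 (hK' ha)).1
    · intro a ha
      exact hxK a (Finset.mem_filter.1 ha).1
    · omega
    · omega

/-- every vertex of `U` has few non-neighbours in `U` -/
lemma Dense.near {L Q : ℕ} {U : Finset V} {D μ : ℝ} (h : Dense G L Q U D μ) (x : V)
    (hx : x ∈ U) : (U.filter (fun y => y ≠ x ∧ ¬ G.Adj x y)).card < C1 L Q := by
  by_contra hcon
  push Not at hcon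
  rcases ramsey G _ _ _ rfl _ hcon with ⟨S, hS, hS1, hS2⟩ | ⟨K, hK, hK1, hK2⟩
  · have := h.coclique S (hS.trans (Finset.filter_subset _ _)) hS2
    omega
  · exact h.noclique x hx K (hK.trans (Finset.filter_subset _ _)) hK2
      (fun y hy => (Finset.mem_filter.1 (hK hy)).2) hK1.ge

/-- constant for the next lemma -/
def T1 (L Q : ℕ) : ℕ := 2 ^ (s0 L Q + (kap L + 1)) + (kap L + 1) * C1 L Q

/-- a vertex outside `U` has few neighbours or few non-neighbours in `U` -/
lemma Dense.dich {L Q : ℕ} {U : Finset V} {D μ : ℝ} (h : Dense G L Q U D μ) (y : V)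
    (hy : y ∉ U) (h1 : T1 L Q ≤ (U ∩ nb G y).card) (h2 : T1 L Q ≤ (U \ nb G y).card) : False := by
  have h3 : 2 ^ (s0 L Q + (kap L + 1)) ≤ (U ∩ nb G y).card := by
    unfold T1 at h1
    have : 0 ≤ (kap L + 1) * C1 L Q := Nat.zero_le _
    omega
  rcases ramsey G _ _ _ rfl _ h3 with ⟨S, hS, hS1, hS2⟩ | ⟨P, hP, hP1, hP2⟩
  · have := h.coclique S (hS.trans Finset.inter_subset_left) hS2
    omega
  set W := (U \ nb G y).filter (fun z => ∀ a ∈ P, G.Adj a z) with hW
  have h4 : ((U \ nb G y) \ W).card ≤ (kap L + 1) * C1 L Q := by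
    have h5 : (U \ nb G y) \ W ⊆ P.biUnion (fun a => U.filter (fun z => z ≠ a ∧ ¬ G.Adj a z)) := by
      intro z hz
      rw [Finset.mem_sdiff, hW, Finset.mem_filter] at hz
      push Not at hz
      obtain ⟨a, ha, haz⟩ := hz.2 hz.1
      rw [Finset.mem_biUnion]
      refine ⟨a, ha, Finset.mem_filter.2 ⟨(Finset.mem_sdiff.1 hz.1).1, ?_, haz⟩⟩
      rintro rfl
      exact (Finset.mem_sdiff.1 hz.1).2 (Finset.mem_inter.1 (hP ha)).2
    calc ((U \ nb G y) \ W).card
        ≤ (P.biUnion (fun a => U.filter (fun z => z ≠ a ∧ ¬ G.Adj a z))).card :=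
          Finset.card_le_card h5
      _ ≤ ∑ a ∈ P, (U.filter (fun z => z ≠ a ∧ ¬ G.Adj a z)).card := Finset.card_biUnion_le
      _ ≤ ∑ a ∈ P, C1 L Q := by
          apply Finset.sum_le_sum
          intro a ha
          exact (h.near a (Finset.mem_inter.1 (hP ha)).1).le
      _ = (kap L + 1) * C1 L Q := by simp [hP1]
  have h5 : 2 ^ (s0 L Q + (kap L + 1)) ≤ W.card := by
    have h6 : ((U \ nb G y) \ W).card + ((U \ nb G y) ∩ W).card = (U \ nb G y).card :=
      Finset.card_sdiff_add_card_inter _ _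
    have h7 : (U \ nb G y) ∩ W = W := by
      rw [Finset.inter_eq_right]
      exact Finset.filter_subset _ _
    rw [h7] at h6
    unfold T1 at h2
    omega
  have hWU : W ⊆ U := (Finset.filter_subset _ _).trans Finset.sdiff_subset
  rcases ramsey G _ _ _ rfl _ h5 with ⟨S, hS, hS1, hS2⟩ | ⟨R, hR, hR1, hR2⟩
  · have := h.coclique S (hS.trans hWU) hS2
    omega
  have hkap : kap L = 2 * L ^ 2 := rfl
  apply clq G L h.hL h.psd y P R
  · intro a ha b hb hab
    rcases Finset.mem_union.1 ha with ha | ha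
    · rcases Finset.mem_union.1 hb with hb | hb
      · exact hP2 a ha b hb hab
      · exact (Finset.mem_filter.1 (hR hb)).2 a ha
    · rcases Finset.mem_union.1 hb with hb | hb
      · exact ((Finset.mem_filter.1 (hR ha)).2 b hb).symm
      · exact hR2 a ha b hb hab
  · intro a ha
    exact (mem_nb G).1 (Finset.mem_inter.1 (hP ha)).2
  · intro a ha
    have h6 := Finset.mem_sdiff.1 (Finset.mem_filter.1 (hR ha)).1
    refine ⟨?_, fun hh => h6.2 ((mem_nb G).2 hh)⟩
    rintro rfl
    exact hy h6.1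
  · omega
  · omega

end Pool.Agent.H253_Bi
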