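import Pool.Agent.H253_Bi.Spec

/-! Parameters of biregular graphs with three eigenvalues. -/

open Finset

namespace Pool.Agent.H253_Bi

variable {V : Type*} [DecidableEq V] [Fintype V] {G : SimpleGraph V} [DecidableRel G.Adj]

lemma sum_ad (x : V) (g : V → ℝ) : ∑ y, ad G x y * g y = ∑ y ∈ nb G x, g y := by
  unfold nb ad
  rw [Finset.sum_filter]
  apply Finset.sum_congr rfl
  intro y _
  split_ifs <;> simp

lemma ad_comm (x y : V) : ad G x y = ad G y x := by
  simp [ad, G.adj_comm]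

lemma sum_ad_on (S : Finset V) (x : V) : ∑ y ∈ S, ad G x y = ((S ∩ nb G x).card : ℝ) := by
  unfold ad
  rw [← Finset.sum_filter, Finset.sum_const, nsmul_eq_mul, mul_one]
  congr 2
  ext y
  simp [nb]

variable {α : V → ℝ} {r m θ : ℝ}

lemma Tri.deg (h : Tri G α r m θ) (x : V) : ((nb G x).card : ℝ) = α x ^ 2 + r * m := by
  have h1 := h.sq x x
  rw [sum_ad, if_pos rfl] at h1
  have h2 : ad G x x = 0 := by simp [ad]
  have h3 : ∑ y ∈ nb G x, ad G y x = ((nb G x).card : ℝ) := by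
    rw [Finset.sum_congr rfl (fun y hy => ?_), Finset.sum_const, nsmul_eq_mul]
    · exact mul_one _
    · rw [mem_nb] at hy
      simp [ad, hy.symm]
  rw [h3, h2] at h1
  rw [h1]
  ring

lemma Tri.com (h : Tri G α r m θ) (x y : V) (hxy : x ≠ y) :
    ((nb G x ∩ nb G y).card : ℝ) = (r - m) * ad G x y + α x * α y := by
  have h1 := h.sq x y
  rw [sum_ad, if_neg hxy, add_zero] at h1
  rw [← h1, ← sum_ad_on]
  apply Finset.sum_congr rfl
  intro z _
  rw [ad_comm]

/-- the two classes -/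
structure Bi (G : SimpleGraph V) [DecidableRel G.Adj] (α : V → ℝ) (r m θ a b : ℝ)
    (P Q : Finset V) : Prop where
  tri : Tri G α r m θ
  conn : G.Connected
  ha : ∀ x ∈ P, α x = a
  hb : ∀ x ∈ Q, α x = b
  cov : ∀ x, x ∈ P ∨ x ∈ Q
  neP : P.Nonempty
  neQ : Q.Nonempty
  lt : b < a

variable {a b : ℝ} {P Q : Finset V}

lemma Bi.b_pos (h : Bi G α r m θ a b P Q) : 0 < b := by
  obtain ⟨y, hy⟩ := h.neQ
  rw [← h.hb y hy]
  exact h.tri.pos y

lemma Bi.a_pos (h : Bi G α r m θ a b P Q) : 0 < a := lt_trans h.b_pos h.lt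

lemma Bi.disj (h : Bi G α r m θ a b P Q) : Disjoint P Q := by
  rw [Finset.disjoint_left]
  intro x hx hx'
  have h1 := h.ha x hx
  have h2 := h.hb x hx'
  have := h.lt
  linarith

lemma Bi.notMem (h : Bi G α r m θ a b P Q) {x : V} (hx : x ∈ Q) : x ∉ P :=
  fun hx' => Finset.disjoint_left.1 h.disj hx' hx

lemma Bi.split (h : Bi G α r m θ a b P Q) (S : Finset V) (g : V → ℝ) :
    ∑ x ∈ S, g x = ∑ x ∈ P ∩ S, g x + ∑ x ∈ Q ∩ S, g x := by
  rw [← Finset.sum_union]
  · apply Finset.sum_congr _ (fun _ _ => rfl)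
    ext x
    simp only [Finset.mem_union, Finset.mem_inter]
    have := h.cov x
    tauto
  · rw [Finset.disjoint_left]
    intro x hx hx'
    exact Finset.disjoint_left.1 h.disj (Finset.mem_inter.1 hx).1 (Finset.mem_inter.1 hx').1

/-- the quantity which determines all parameters -/
noncomputable def ww (r m θ a b : ℝ) : ℝ := (θ - b ^ 2 - r * m) / (a - b)

lemma Bi.theta (h : Bi G α r m θ a b P Q) :
    θ = b ^ 2 + r * m + (a - b) * ww r m θ a b := by
  have h1 : a - b ≠ 0 := by have := h.lt; intro h0; linarith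
  unfold ww
  field_simp
  ring

lemma Bi.two (h : Bi G α r m θ a b P Q) (x : V) :
    ((P ∩ nb G x).card : ℝ) + ((Q ∩ nb G x).card : ℝ) = α x ^ 2 + r * m ∧
    ((P ∩ nb G x).card : ℝ) * a + ((Q ∩ nb G x).card : ℝ) * b = θ * α x := by
  constructor
  · rw [← h.tri.deg x]
    have h1 := h.split (nb G x) (fun _ => 1)
    simp only [Finset.sum_const, nsmul_eq_mul, mul_one] at h1
    exact h1.symm
  · have h1 := h.tri.eig x
    rw [sum_ad, h.split] at h1
    rw [Finset.sum_congr rfl (fun y hy => h.ha y (Finset.mem_inter.1 hy).1),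
      Finset.sum_congr rfl (fun y hy => h.hb y (Finset.mem_inter.1 hy).1)] at h1
    simpa using h1

lemma Bi.pp (h : Bi G α r m θ a b P Q) {x : V} (hx : x ∈ P) :
    ((P ∩ nb G x).card : ℝ) = r * m - a * b + a * ww r m θ a b := by
  obtain ⟨h1, h2⟩ := h.two x
  rw [h.ha x hx] at h1 h2
  have h3 := h.theta
  have h4 : a - b ≠ 0 := by have := h.lt; intro h0; linarith
  have h5 : (a - b) * ((P ∩ nb G x).card : ℝ) =
      (a - b) * (r * m - a * b + a * ww r m θ a b) := by
    linear_combination h2 - b * h1 + a * h3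
  exact mul_left_cancel₀ h4 h5

lemma Bi.pq (h : Bi G α r m θ a b P Q) {x : V} (hx : x ∈ P) :
    ((Q ∩ nb G x).card : ℝ) = a * (a + b - ww r m θ a b) := by
  obtain ⟨h1, h2⟩ := h.two x
  rw [h.ha x hx, h.pp hx] at h1
  linarith

lemma Bi.qp (h : Bi G α r m θ a b P Q) {x : V} (hx : x ∈ Q) :
    ((P ∩ nb G x).card : ℝ) = b * ww r m θ a b := by
  obtain ⟨h1, h2⟩ := h.two x
  rw [h.hb x hx] at h1 h2
  have h3 := h.theta
  have h4 : a - b ≠ 0 := by have := h.lt; intro h0; linarith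
  have h5 : (a - b) * ((P ∩ nb G x).card : ℝ) = (a - b) * (b * ww r m θ a b) := by
    linear_combination h2 - b * h1 + b * h3
  exact mul_left_cancel₀ h4 h5

lemma Bi.qq (h : Bi G α r m θ a b P Q) {x : V} (hx : x ∈ Q) :
    ((Q ∩ nb G x).card : ℝ) = b ^ 2 + r * m - b * ww r m θ a b := by
  obtain ⟨h1, h2⟩ := h.two x
  rw [h.hb x hx, h.qp hx] at h1
  linarith

/-- the identity from `A²` -/
lemma Bi.ident (h : Bi G α r m θ a b P Q) (x : V) :
    (r - m) * ((P ∩ nb G x).card : ℝ) + (if x ∈ P then r * m else 0) + α x * (P.card * a) =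
      ((P ∩ nb G x).card : ℝ) * (r * m - a * b + a * ww r m θ a b) +
        ((Q ∩ nb G x).card : ℝ) * (b * ww r m θ a b) := by
  have h1 : ∑ y ∈ P, ∑ z, ad G x z * ad G z y =
      ∑ y ∈ P, ((r - m) * ad G x y + (if x = y then r * m else 0) + α x * α y) := by
    apply Finset.sum_congr rfl
    intro y _
    exact h.tri.sq x y
  rw [Finset.sum_add_distrib, Finset.sum_add_distrib, ← Finset.mul_sum, ← Finset.mul_sum,
    sum_ad_on, Finset.sum_congr rfl (fun y hy => h.ha y hy), Finset.sum_ite_eq,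
    Finset.sum_const, nsmul_eq_mul] at h1
  rw [← h1, Finset.sum_comm]
  have h2 : ∀ z, ∑ y ∈ P, ad G x z * ad G z y = ad G x z * ((P ∩ nb G z).card : ℝ) := by
    intro z
    rw [← Finset.mul_sum, sum_ad_on]
  rw [Finset.sum_congr rfl (fun z _ => h2 z), sum_ad, h.split,
    Finset.sum_congr rfl (fun z hz => h.pp (Finset.mem_inter.1 hz).1),
    Finset.sum_congr rfl (fun z hz => h.qp (Finset.mem_inter.1 hz).1)]
  simp only [Finset.sum_const, nsmul_eq_mul]

lemma Bi.nP (h : Bi G α r m θ a b P Q) :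
    (P.card : ℝ) * a = ww r m θ a b * (θ + r * m - a * b - r + m) := by
  obtain ⟨y, hy⟩ := h.neQ
  have h1 := h.ident y
  rw [if_neg (h.notMem hy), h.qp hy, h.qq hy, h.hb y hy] at h1
  have hb := h.b_pos
  have h3 := h.theta
  have h4 : b * ((P.card : ℝ) * a) = b * (ww r m θ a b * (θ + r * m - a * b - r + m)) := by
    linear_combination h1 - b * ww r m θ a b * h3
  exact mul_left_cancel₀ hb.ne' h4

/-- the product of the two values -/
lemma Bi.cases (h : Bi G α r m θ a b P Q) : a * b = r * (m - 1) ∨ a * b = m * (r + 1) := by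
  obtain ⟨x, hx⟩ := h.neP
  have h1 := h.ident x
  rw [if_pos hx, h.pp hx, h.pq hx, h.ha x hx] at h1
  have h2 := h.nP
  have h3 := h.theta
  have h4 : (a * b - r * (m - 1)) * (a * b - m * (r + 1)) = 0 := by
    linear_combination (-1 : ℝ) * h1 + a * h2 + a * ww r m θ a b * h3
  rcases mul_eq_zero.1 h4 with h5 | h5
  · left; linarith
  · right; linarith

end Pool.Agent.H253_Bi
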