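import Pool.Agent.H253_Bi.Near

/-! Connected graphs whose adjacency matrix has three distinct eigenvalues. -/

open Finset Matrix

namespace Pool.Agent.H253_Bi

variable {V : Type*} [DecidableEq V] [Fintype V]

lemma spec_shift (A : Matrix V V ℝ) (c t : ℝ) :
    t ∈ spectrum ℝ (A + c • (1 : Matrix V V ℝ)) ↔ t - c ∈ spectrum ℝ A := by
  rw [spectrum.mem_iff, spectrum.mem_iff]
  have h : (algebraMap ℝ (Matrix V V ℝ)) t - (A + c • 1) =
      (algebraMap ℝ (Matrix V V ℝ)) (t - c) - A := by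
    rw [map_sub, Algebra.algebraMap_eq_smul_one, Algebra.algebraMap_eq_smul_one]
    abel
  rw [h]

lemma spec_neg (A : Matrix V V ℝ) (c t : ℝ) :
    t ∈ spectrum ℝ (c • (1 : Matrix V V ℝ) - A) ↔ c - t ∈ spectrum ℝ A := by
  rw [spectrum.mem_iff, spectrum.mem_iff]
  have h : (algebraMap ℝ (Matrix V V ℝ)) t - (c • 1 - A) =
      -((algebraMap ℝ (Matrix V V ℝ)) (c - t) - A) := by
    rw [map_sub, Algebra.algebraMap_eq_smul_one, Algebra.algebraMap_eq_smul_one]
    abel
  rw [h, IsUnit.neg_iff]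

lemma psd_of_spec (B : Matrix V V ℝ) (hB : B.IsHermitian) (h : ∀ t ∈ spectrum ℝ B, 0 ≤ t) :
    B.PosSemidef := by
  rw [hB.posSemidef_iff_eigenvalues_nonneg]
  intro i
  exact h _ (hB.eigenvalues_mem_spectrum_real i)

lemma exists_vec (A : Matrix V V ℝ) (t : ℝ) (ht : t ∈ spectrum ℝ A) :
    ∃ v : V → ℝ, v ≠ 0 ∧ A *ᵥ v = t • v := by
  rw [spectrum.mem_iff, Matrix.isUnit_iff_isUnit_det, isUnit_iff_ne_zero, not_not] at ht
  obtain ⟨v, hv, h⟩ := Matrix.exists_mulVec_eq_zero_iff.2 ht
  refine ⟨v, hv, ?_⟩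
  rw [Algebra.algebraMap_eq_smul_one, Matrix.sub_mulVec, Matrix.smul_mulVec, Matrix.one_mulVec,
    sub_eq_zero] at h
  exact h.symm

lemma mul_zero_of_spec (A : Matrix V V ℝ) (hA : A.IsHermitian) (t0 t1 t2 : ℝ)
    (h : ∀ t ∈ spectrum ℝ A, t = t0 ∨ t = t1 ∨ t = t2) :
    (A - t0 • (1 : Matrix V V ℝ)) * ((A - t1 • (1 : Matrix V V ℝ)) *
      (A - t2 • (1 : Matrix V V ℝ))) = 0 := by
  have key : ∀ i, ((A - t0 • (1 : Matrix V V ℝ)) * ((A - t1 • (1 : Matrix V V ℝ)) *
      (A - t2 • (1 : Matrix V V ℝ)))) *ᵥ ⇑(hA.eigenvectorBasis i) = 0 := by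
    intro i
    have h1 : ∀ c : ℝ, (A - c • (1 : Matrix V V ℝ)) *ᵥ ⇑(hA.eigenvectorBasis i) =
        (hA.eigenvalues i - c) • ⇑(hA.eigenvectorBasis i) := by
      intro c
      rw [Matrix.sub_mulVec, Matrix.smul_mulVec, Matrix.one_mulVec, hA.mulVec_eigenvectorBasis,
        sub_smul]
    rw [← Matrix.mulVec_mulVec, ← Matrix.mulVec_mulVec, h1, Matrix.mulVec_smul, h1,
      Matrix.mulVec_smul, Matrix.mulVec_smul, h1]
    rcases h _ (hA.eigenvalues_mem_spectrum_real i) with h2 | h2 | h2 <;> simp [h2]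
  have h3 : ∀ v : EuclideanSpace ℝ V, ((A - t0 • (1 : Matrix V V ℝ)) *
      ((A - t1 • (1 : Matrix V V ℝ)) * (A - t2 • (1 : Matrix V V ℝ)))) *ᵥ ⇑v = 0 := by
    intro v
    rw [← hA.eigenvectorBasis.sum_repr v]
    simp only [WithLp.ofLp_sum, WithLp.ofLp_smul, Matrix.mulVec_sum, Matrix.mulVec_smul]
    apply Finset.sum_eq_zero
    intro i _
    rw [key i, smul_zero]
  apply Matrix.ext_of_mulVec_single
  intro i
  have := h3 (WithLp.toLp 2 (Pi.single i 1))
  rw [Matrix.zero_mulVec]
  exact this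

variable (G : SimpleGraph V) [DecidableRel G.Adj]

lemma adj_eq (x y : V) : G.adjMatrix ℝ x y = ad G x y := by
  simp [ad, SimpleGraph.adjMatrix_apply]

lemma adj_herm : (G.adjMatrix ℝ).IsHermitian := by
  rw [Matrix.IsHermitian, Matrix.conjTranspose_eq_transpose_of_trivial]
  exact G.transpose_adjMatrix

lemma mulVec_adj (f : V → ℝ) (x : V) : (G.adjMatrix ℝ *ᵥ f) x = ∑ y, ad G x y * f y := by
  simp only [Matrix.mulVec, dotProduct, adj_eq]

lemma Psd_of_spec (c : ℝ) (h : ∀ t ∈ spectrum ℝ (G.adjMatrix ℝ), -c ≤ t) : Psd G c := by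
  have h1 : (G.adjMatrix ℝ + c • (1 : Matrix V V ℝ)).PosSemidef := by
    apply psd_of_spec
    · apply Matrix.IsHermitian.add (adj_herm G)
      rw [Matrix.IsHermitian, Matrix.conjTranspose_smul, Matrix.conjTranspose_one]
      simp
    · intro t ht
      rw [spec_shift] at ht
      have := h _ ht
      linarith
  intro f
  have h2 := h1.dotProduct_mulVec_nonneg f
  rw [Matrix.add_mulVec, Matrix.smul_mulVec, Matrix.one_mulVec, dotProduct_add] at h2
  simp only [dotProduct, mulVec_adj, Pi.star_apply, star_trivial, Pi.smul_apply, smul_eq_mul] at h2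
  have h3 : ∑ x, ∑ y, ad G x y * f x * f y = ∑ x, f x * ∑ y, ad G x y * f y := by
    apply Finset.sum_congr rfl
    intro x _
    rw [Finset.mul_sum]
    apply Finset.sum_congr rfl
    intro y _
    ring
  have h4 : c * ∑ x, f x ^ 2 = ∑ x, f x * (c * f x) := by
    rw [Finset.mul_sum]
    apply Finset.sum_congr rfl
    intro y _
    ring
  rw [h3, h4]
  exact h2

variable {G}

/-- a nonnegative eigenvector with a zero vanishes -/
lemma zero_prop (hG : G.Connected) (t : ℝ) (f : V → ℝ) (hf : ∀ x, 0 ≤ f x)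
    (he : ∀ x, ∑ y, ad G x y * f y = t * f x) (x0 : V) (h0 : f x0 = 0) (x : V) : f x = 0 := by
  have step : ∀ x y, f x = 0 → G.Adj x y → f y = 0 := by
    intro x y hx hxy
    have h1 := he x
    rw [hx, mul_zero] at h1
    have h2 := (Finset.sum_eq_zero_iff_of_nonneg (fun z _ => by
      unfold ad
      split_ifs
      · simpa using hf z
      · simp)).1 h1 y (Finset.mem_univ y)
    unfold ad at h2
    rw [if_pos hxy, one_mul] at h2
    exact h2
  obtain ⟨w⟩ := hG.preconnected x0 x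
  induction w with
  | nil => exact h0
  | cons hadj _ ih => exact ih (step _ _ h0 hadj)

/-- absolute values of eigenvectors for the largest eigenvalue are eigenvectors -/
lemma abs_eig (t : ℝ) (ht : ∀ s ∈ spectrum ℝ (G.adjMatrix ℝ), s ≤ t) (f : V → ℝ)
    (he : ∀ x, ∑ y, ad G x y * f y = t * f x) :
    ∀ x, ∑ y, ad G x y * |f y| = t * |f x| := by
  have h1 : (t • (1 : Matrix V V ℝ) - G.adjMatrix ℝ).PosSemidef := by
    apply psd_of_spec
    · apply Matrix.IsHermitian.sub _ (adj_herm G)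
      rw [Matrix.IsHermitian, Matrix.conjTranspose_smul, Matrix.conjTranspose_one]
      simp
    · intro s hs
      rw [spec_neg] at hs
      have := ht _ hs
      linarith
  have h2 := h1.dotProduct_mulVec_nonneg (fun x => |f x|)
  have h3 : star (fun x => |f x|) ⬝ᵥ (t • (1 : Matrix V V ℝ) - G.adjMatrix ℝ) *ᵥ
      (fun x => |f x|) = ∑ x, (t * |f x| ^ 2 - ∑ y, ad G x y * |f x| * |f y|) := by
    rw [Matrix.sub_mulVec, Matrix.smul_mulVec, Matrix.one_mulVec]
    simp only [dotProduct, Pi.sub_apply, mulVec_adj, Pi.star_apply, star_trivial, Pi.smul_apply,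
      smul_eq_mul]
    apply Finset.sum_congr rfl
    intro x _
    rw [mul_sub, Finset.mul_sum]
    congr 1
    · ring
    · apply Finset.sum_congr rfl
      intro y _
      ring
  have h4 : ∑ x, (t * |f x| ^ 2 - ∑ y, ad G x y * |f x| * |f y|) ≤ 0 := by
    have h5 : ∑ x, (t * |f x| ^ 2 - ∑ y, ad G x y * |f x| * |f y|) ≤
        ∑ x, (t * f x ^ 2 - ∑ y, ad G x y * f x * f y) := by
      apply Finset.sum_le_sum
      intro x _
      rw [sq_abs]
      apply sub_le_sub_left
      apply Finset.sum_le_sum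
      intro y _
      unfold ad
      split_ifs
      · rw [one_mul, one_mul, ← abs_mul]
        exact le_abs_self _
      · simp
    have h6 : ∑ x, (t * f x ^ 2 - ∑ y, ad G x y * f x * f y) = 0 := by
      apply Finset.sum_eq_zero
      intro x _
      have h7 : ∑ y, ad G x y * f x * f y = f x * ∑ y, ad G x y * f y := by
        rw [Finset.mul_sum]
        apply Finset.sum_congr rfl
        intro y _
        ring
      rw [h7, he x]
      ring
    linarith
  have h5 := (h1.dotProduct_mulVec_zero_iff (fun x => |f x|)).1 (by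
    apply le_antisymm
    · rw [h3]
      exact h4
    · exact h2)
  intro x
  have h6 := congrFun h5 x
  rw [Matrix.sub_mulVec, Matrix.smul_mulVec, Matrix.one_mulVec] at h6
  simp only [Pi.sub_apply, mulVec_adj, Pi.smul_apply, smul_eq_mul, Pi.zero_apply] at h6
  linarith

/-- the facts about the adjacency matrix that are used -/
structure Tri (G : SimpleGraph V) [DecidableRel G.Adj] (α : V → ℝ) (r m θ : ℝ) : Prop where
  pos : ∀ x, 0 < α x
  sq : ∀ x y, ∑ z, ad G x z * ad G z y = (r - m) * ad G x y + (if x = y then r * m else 0) +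
    α x * α y
  eig : ∀ x, ∑ y, ad G x y * α y = θ * α x
  psd : Psd G m

theorem spec (hG : G.Connected) (h3 : (spectrum ℝ (G.adjMatrix ℝ)).ncard = 3) (lam : ℝ)
    (hlam : ∀ t ∈ spectrum ℝ (G.adjMatrix ℝ), -lam ≤ t) :
    ∃ (α : V → ℝ) (r m θ : ℝ), Tri G α r m θ ∧ m ≤ lam := by
  classical
  set A := G.adjMatrix ℝ with hA
  obtain ⟨a, b, c, hab, hac, hbc, hS⟩ := Set.ncard_eq_three.1 h3
  -- order them
  obtain ⟨t0, t1, t2, h01, h12, hS'⟩ : ∃ t0 t1 t2 : ℝ, t1 < t0 ∧ t2 < t1 ∧
      spectrum ℝ A = {t0, t1, t2} := by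
    rcases lt_or_gt_of_ne hab with h1 | h1 <;> rcases lt_or_gt_of_ne hac with h2 | h2 <;>
      rcases lt_or_gt_of_ne hbc with h4 | h4
    · exact ⟨c, b, a, h4, h1, by rw [hS]; ext; simp; tauto⟩
    · exact ⟨b, c, a, h4, h2, by rw [hS]; ext; simp; tauto⟩
    · exact absurd (lt_trans h1 h4) (not_lt.2 h2.le)
    · exact ⟨b, a, c, h1, h2, by rw [hS]; ext; simp; tauto⟩
    · exact ⟨c, a, b, h2, h1, by rw [hS]; ext; simp; tauto⟩
    · exact absurd (lt_trans h4 h1) (not_lt.2 h2.le)
    · exact ⟨a, c, b, h2, h4, by rw [hS]; ext; simp; tauto⟩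
    · exact ⟨a, b, c, h1, h4, by rw [hS]⟩
  have hmem : ∀ t ∈ spectrum ℝ A, t = t0 ∨ t = t1 ∨ t = t2 := by
    intro t ht
    rw [hS'] at ht
    simpa using ht
  have hmax : ∀ t ∈ spectrum ℝ A, t ≤ t0 := by
    intro t ht
    rcases hmem t ht with rfl | rfl | rfl <;> linarith
  have hmin : ∀ t ∈ spectrum ℝ A, t2 ≤ t := by
    intro t ht
    rcases hmem t ht with rfl | rfl | rfl <;> linarith
  -- the Perron vector
  obtain ⟨f, hf0, hf⟩ := exists_vec A t0 (by rw [hS']; simp)
  have hf' : ∀ x, ∑ y, ad G x y * f y = t0 * f x := by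
    intro x
    have := congrFun hf x
    rw [hA, mulVec_adj] at this
    simpa using this
  have hfa := abs_eig t0 hmax f hf'
  have hfpos : ∀ x, 0 < |f x| := by
    intro x
    by_contra hcon
    have h0 : |f x| = 0 := le_antisymm (not_lt.1 hcon) (abs_nonneg _)
    apply hf0
    funext y
    have := zero_prop hG t0 (fun x => |f x|) (fun _ => abs_nonneg _) hfa x h0 y
    simpa using this
  -- uniqueness
  have huniq : ∀ g : V → ℝ, (∀ x, ∑ y, ad G x y * g y = t0 * g x) → ∀ x0 x,
      g x * |f x0| = g x0 * |f x| := by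
    intro g hg x0 x
    have h1 : ∀ x, ∑ y, ad G x y * (g y * |f x0| - g x0 * |f y|) =
        t0 * (g x * |f x0| - g x0 * |f x|) := by
      intro x
      have h2 : ∀ y, ad G x y * (g y * |f x0| - g x0 * |f y|) =
          |f x0| * (ad G x y * g y) - g x0 * (ad G x y * |f y|) := by
        intro y
        ring
      rw [Finset.sum_congr rfl (fun y _ => h2 y), Finset.sum_sub_distrib, ← Finset.mul_sum,
        ← Finset.mul_sum, hg x, hfa x]
      ring
    have h2 := abs_eig t0 hmax _ h1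
    have h3 := zero_prop hG t0 _ (fun _ => abs_nonneg _) h2 x0 (by simp) x
    have h4 := abs_eq_zero.1 h3
    linarith
  -- the matrix `M = (A - t1) (A - t2)`
  set M := (A - t1 • (1 : Matrix V V ℝ)) * (A - t2 • (1 : Matrix V V ℝ)) with hM
  have hMe : ∀ x y, M x y = ∑ z, ad G x z * ad G z y - (t1 + t2) * ad G x y +
      (if x = y then t1 * t2 else 0) := by
    intro x y
    have h1 : M = A * A - (t1 + t2) • A + (t1 * t2) • (1 : Matrix V V ℝ) := by
      rw [hM, sub_mul, mul_sub, mul_sub, Matrix.smul_mul, Matrix.one_mul, Matrix.mul_smul,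
        Matrix.mul_one, Matrix.smul_mul, Matrix.one_mul, add_smul, smul_smul]
      abel
    rw [h1, Matrix.add_apply, Matrix.sub_apply, Matrix.mul_apply, Matrix.smul_apply,
      Matrix.smul_apply, Matrix.one_apply]
    simp only [hA, adj_eq, smul_eq_mul]
    congr 1
    split_ifs <;> simp
  have hMsym : ∀ x y, M x y = M y x := by
    intro x y
    rw [hMe, hMe]
    have h1 : ∀ a b, ad G a b = ad G b a := by
      intro a b
      simp [ad, G.adj_comm]
    congr 1
    · congr 1
      · apply Finset.sum_congr rfl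
        intro z _
        rw [h1 x z, h1 z y]
        ring
      · rw [h1 x y]
    · simp [eq_comm]
  have hMcol : ∀ y x, ∑ z, ad G x z * M z y = t0 * M x y := by
    intro y x
    have h1 := mul_zero_of_spec A (adj_herm G) t0 t1 t2 hmem
    rw [← hM, sub_mul, Matrix.smul_mul, Matrix.one_mul, sub_eq_zero] at h1
    have h2 := congrFun (congrFun h1 x) y
    rw [Matrix.mul_apply, Matrix.smul_apply, smul_eq_mul] at h2
    rw [← h2]
    apply Finset.sum_congr rfl
    intro z _
    rw [hA, adj_eq]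
  have hcol : ∀ x0 x y, M x y * |f x0| = M x0 y * |f x| := by
    intro x0 x y
    exact huniq (fun x => M x y) (hMcol y) x0 x
  obtain ⟨v0⟩ := hG.nonempty
  set c0 := M v0 v0 / |f v0| ^ 2 with hc0
  have hMf : ∀ x y, M x y = c0 * (|f x| * |f y|) := by
    intro x y
    have h1 := hcol v0 x y
    have h2 := hcol v0 y v0
    rw [hMsym y v0] at h2
    have h3 := hfpos v0
    rw [hc0]
    field_simp
    linear_combination |f v0| * h1 + |f x| * h2
  -- positivity of the constant
  have hc0pos : 0 < c0 := by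
    have h1 : M *ᵥ (fun x => |f x|) = ((t0 - t1) * (t0 - t2)) • (fun x => |f x|) := by
      have h2 : A *ᵥ (fun x => |f x|) = t0 • (fun x => |f x|) := by
        funext x
        rw [hA, mulVec_adj, hfa x]
        simp
      have h3 : ∀ c : ℝ, (A - c • (1 : Matrix V V ℝ)) *ᵥ (fun x => |f x|) =
          (t0 - c) • (fun x => |f x|) := by
        intro c
        rw [Matrix.sub_mulVec, Matrix.smul_mulVec, Matrix.one_mulVec, h2, ← sub_smul]
      rw [hM, ← Matrix.mulVec_mulVec, h3, Matrix.mulVec_smul, h3, smul_smul, mul_comm]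
    have h2 := congrFun h1 v0
    simp only [Matrix.mulVec, dotProduct, hMf, Pi.smul_apply, smul_eq_mul] at h2
    have h3 : ∑ y, c0 * (|f v0| * |f y|) * |f y| = c0 * (|f v0| * ∑ y, |f y| ^ 2) := by
      rw [Finset.mul_sum, Finset.mul_sum]
      apply Finset.sum_congr rfl
      intro y _
      ring
    rw [h3] at h2
    have h4 : 0 < (t0 - t1) * (t0 - t2) * |f v0| :=
      mul_pos (mul_pos (by linarith) (by linarith)) (hfpos v0)
    rw [← h2] at h4
    have h5 : 0 ≤ |f v0| * ∑ y, |f y| ^ 2 := by positivity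
    by_contra hcon
    push Not at hcon
    have : c0 * (|f v0| * ∑ y, |f y| ^ 2) ≤ 0 := mul_nonpos_of_nonpos_of_nonneg hcon h5
    linarith
  refine ⟨fun x => Real.sqrt c0 * |f x|, t1, -t2, t0, ⟨?_, ?_, ?_, ?_⟩, ?_⟩
  · intro x
    exact mul_pos (Real.sqrt_pos.2 hc0pos) (hfpos x)
  · intro x y
    have h1 := hMe x y
    rw [hMf] at h1
    have h2 : Real.sqrt c0 * |f x| * (Real.sqrt c0 * |f y|) = c0 * (|f x| * |f y|) := by
      have := Real.mul_self_sqrt hc0pos.le
      calc Real.sqrt c0 * |f x| * (Real.sqrt c0 * |f y|)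
          = (Real.sqrt c0 * Real.sqrt c0) * (|f x| * |f y|) := by ring
        _ = _ := by rw [this]
    rw [h2]
    by_cases hxy : x = y
    · simp only [hxy, if_true] at h1 ⊢
      linarith
    · simp only [hxy, if_false] at h1 ⊢
      linarith
  · intro x
    have h1 : ∀ y, ad G x y * (Real.sqrt c0 * |f y|) = Real.sqrt c0 * (ad G x y * |f y|) := by
      intro y
      ring
    rw [Finset.sum_congr rfl (fun y _ => h1 y), ← Finset.mul_sum, hfa x]
    ring
  · apply Psd_of_spec
    intro t ht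
    rw [neg_neg]
    exact hmin t ht
  · have := hlam t2 (by rw [hS']; simp)
    linarith

end Pool.Agent.H253_Bi
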